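import Pool.Agent.Helper50.VSI.Loc
import Pool.Graph.R_pool_sql_team_seeded_3997aac3.Q276.PL.Mean

/-!
# Primes with a small unit in very short intervals
-/

set_option autoImplicit false

namespace Pool.Agent.Helper50.VSI

open Pool.Agent.Q276.PL

/-- All intervals, all dyadic ranges. -/
theorem cover : ∃ C : ℝ, 1 ≤ C ∧ ∀ (D H σ : ℝ) (m : ℕ) (S : Finset ℕ), C ≤ D →
    1 ≤ m → 0 ≤ σ → 2 * (2 * σ + 1) ^ 2 ≤ m → C * m ≤ Real.log D → 0 ≤ H → H ≤ D →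
    (∀ p ∈ S, p.Prime ∧ D ≤ p ∧ (p : ℝ) ≤ D + H ∧
      ∃ x y : ℤ, Fund p x y ∧ (y : ℝ) ≤ D ^ σ) →
    (S.card : ℝ) ≤ (H / D ^ (1 / (8 * (m : ℝ))) + 1) * (2 * σ * Real.log D + 1) *
      (C * D ^ (1 / (16 * (m : ℝ))) * ((m : ℝ) ^ 2 * Real.log D) ^ 3) := by
  classical
  obtain ⟨C, hC1, hC⟩ := loc
  refine ⟨C, hC1, ?_⟩
  intro D H σ m S hD hm hσ hm2 hCm hH hHD hS
  have hm0 : (1 : ℝ) ≤ m := by exact_mod_cast hm
  have hlD : 1 ≤ Real.log D := by nlinarith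
  have hD1 : 1 ≤ D := by linarith
  have hD0 : 0 < D := by linarith
  obtain ⟨L, hL⟩ : ∃ L : ℝ, L = D ^ (1 / (8 * (m : ℝ))) := ⟨_, rfl⟩
  have hL0 : 0 < L := by
    rw [hL]
    exact Real.rpow_pos_of_pos hD0 _
  obtain ⟨B, hB⟩ : ∃ B : ℝ, B = C * D ^ (1 / (16 * (m : ℝ))) *
    ((m : ℝ) ^ 2 * Real.log D) ^ 3 := ⟨_, rfl⟩
  rw [← hL, ← hB]
  have hB0 : 0 ≤ B := by
    rw [hB]
    have : 0 ≤ D ^ (1 / (16 * (m : ℝ))) := Real.rpow_nonneg hD0.le _
    positivity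
  obtain ⟨F, hF⟩ : ∃ F : ℕ × ℕ → Finset ℕ, F = fun q => S.filter (fun p : ℕ =>
    D + q.1 * L ≤ p ∧ (p : ℝ) ≤ D + q.1 * L + L ∧
    ∃ x y : ℤ, Fund p x y ∧ (2 : ℝ) ^ q.2 ≤ y ∧ (y : ℝ) < 2 * 2 ^ q.2) := ⟨_, rfl⟩
  obtain ⟨I, hI⟩ : ∃ I : Finset (ℕ × ℕ), I = Finset.range (⌊H / L⌋₊ + 1) ×ˢ
    (Finset.range (⌊2 * σ * Real.log D⌋₊ + 1)).filter (fun i => (2 : ℝ) ^ i ≤ D ^ σ) := ⟨_, rfl⟩
  have hFb : ∀ q ∈ I, (F q).card ≤ ⌊B⌋₊ := by
    intro q hq
    rw [hI, Finset.mem_product, Finset.mem_filter] at hq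
    refine Nat.le_floor ?_
    rw [hB]
    refine hC D (2 ^ q.2) σ m (F q) hD hm hσ hm2 hCm (one_le_pow₀ (by norm_num)) hq.2.2 ?_ ?_
    · intro p hp
      rw [hF] at hp
      obtain ⟨hpS, h1, h2, h3⟩ := Finset.mem_filter.1 hp
      obtain ⟨h4, h5, h6, -⟩ := hS p hpS
      exact ⟨h4, h5, by linarith, h3⟩
    · intro p hp p' hp'
      rw [hF] at hp hp'
      obtain ⟨-, h1, h2, -⟩ := Finset.mem_filter.1 hp
      obtain ⟨-, h1', h2', -⟩ := Finset.mem_filter.1 hp'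
      rw [← hL, abs_le]
      constructor
      · linarith
      · linarith
  have hcov : S ⊆ I.biUnion F := by
    intro p hp
    obtain ⟨h1, h2, h3, x, y, hxy, hy⟩ := hS p hp
    have hy1 : 1 ≤ y := hxy.2.1
    obtain ⟨n, rfl⟩ : ∃ n : ℕ, y = n := ⟨y.toNat, by omega⟩
    have hn : n ≠ 0 := by
      rintro rfl
      simp at hy1
    obtain ⟨i, hi⟩ : ∃ i : ℕ, i = Nat.log 2 n := ⟨_, rfl⟩
    have hi1 : 2 ^ i ≤ n := by
      rw [hi]
      exact Nat.pow_log_le_self 2 hn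
    have hi2 : n < 2 ^ (i + 1) := by
      rw [hi]
      exact Nat.lt_pow_succ_log_self (by norm_num) n
    have hi3 : (2 : ℝ) ^ i ≤ n := by exact_mod_cast hi1
    have hi4 : (n : ℝ) < 2 * 2 ^ i := by
      have : (n : ℝ) < 2 ^ (i + 1) := by exact_mod_cast hi2
      rw [pow_succ] at this
      linarith
    have hyn : (n : ℝ) ≤ D ^ σ := by exact_mod_cast hy
    have hi5 : (2 : ℝ) ^ i ≤ D ^ σ := hi3.trans hyn
    have hi6 : (i : ℝ) ≤ 2 * σ * Real.log D := by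
      have e1 := Real.log_le_log (by positivity) hi5
      rw [Real.log_pow, Real.log_rpow hD0] at e1
      have e2 : (1 : ℝ) / 2 ≤ Real.log 2 := by
        have := Real.log_two_gt_d9
        linarith
      have e3 : (i : ℝ) * (1 / 2) ≤ i * Real.log 2 :=
        mul_le_mul_of_nonneg_left e2 (Nat.cast_nonneg i)
      linarith
    obtain ⟨j, hj⟩ : ∃ j : ℕ, j = ⌊((p : ℝ) - D) / L⌋₊ := ⟨_, rfl⟩
    have hj0 : 0 ≤ ((p : ℝ) - D) / L := div_nonneg (by linarith) hL0.le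
    have hj1 : (j : ℝ) ≤ ((p : ℝ) - D) / L := by
      rw [hj]
      exact Nat.floor_le hj0
    have hj2 : ((p : ℝ) - D) / L < j + 1 := by
      rw [hj]
      exact Nat.lt_floor_add_one _
    rw [le_div_iff₀ hL0] at hj1
    rw [div_lt_iff₀ hL0] at hj2
    have hj3 : j ≤ ⌊H / L⌋₊ := by
      rw [hj]
      exact Nat.floor_le_floor (div_le_div_of_nonneg_right (by linarith) hL0.le)
    rw [Finset.mem_biUnion]
    refine ⟨(j, i), ?_, ?_⟩
    · rw [hI, Finset.mem_product, Finset.mem_filter, Finset.mem_range, Finset.mem_range]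
      exact ⟨by simp only; omega, Nat.lt_succ_of_le (Nat.le_floor hi6), hi5⟩
    · rw [hF]
      refine Finset.mem_filter.2 ⟨hp, ?_, ?_, x, n, hxy, ?_, ?_⟩
      · simp only
        linarith
      · simp only
        linarith
      · exact_mod_cast hi3
      · exact_mod_cast hi4
  have h2 : (I.biUnion F).card ≤ I.card * ⌊B⌋₊ := Finset.card_biUnion_le_card_mul _ _ _ hFb
  have h3 : (I.card : ℝ) ≤ (H / L + 1) * (2 * σ * Real.log D + 1) := by
    have e1 : I.card ≤ (⌊H / L⌋₊ + 1) * (⌊2 * σ * Real.log D⌋₊ + 1) := by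
      rw [hI, Finset.card_product, Finset.card_range]
      refine Nat.mul_le_mul_left _ ?_
      refine (Finset.card_filter_le _ _).trans ?_
      rw [Finset.card_range]
    have e2 : (I.card : ℝ) ≤ ((⌊H / L⌋₊ : ℝ) + 1) * ((⌊2 * σ * Real.log D⌋₊ : ℝ) + 1) := by
      exact_mod_cast e1
    refine e2.trans ?_
    have e3 : (⌊H / L⌋₊ : ℝ) ≤ H / L := Nat.floor_le (by positivity)
    have e4 : (⌊2 * σ * Real.log D⌋₊ : ℝ) ≤ 2 * σ * Real.log D := Nat.floor_le (by positivity)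
    exact mul_le_mul (by linarith) (by linarith) (by positivity) (by positivity)
  have h4 : ((I.biUnion F).card : ℝ) ≤ (I.card : ℝ) * (⌊B⌋₊ : ℝ) := by
    exact_mod_cast h2
  have h5 : (⌊B⌋₊ : ℝ) ≤ B := Nat.floor_le hB0
  calc (S.card : ℝ) ≤ ((I.biUnion F).card : ℝ) := by exact_mod_cast Finset.card_le_card hcov
    _ ≤ (I.card : ℝ) * (⌊B⌋₊ : ℝ) := h4
    _ ≤ (H / L + 1) * (2 * σ * Real.log D + 1) * B :=
        mul_le_mul h3 h5 (Nat.cast_nonneg _) (by positivity)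

/-- From a small unit to a small least solution of the Pell equation. -/
theorem fund_of_small {p : ℕ} (hp : p.Prime) {B : ℝ} (h : SmallUnit (dsc p) B) :
    ∃ x y : ℤ, Fund p x y ∧ (y : ℝ) ≤ B ^ 6 := by
  obtain ⟨t, u, ht, hu, htu, hb⟩ := h
  have hd2 := hp.two_le
  have hD5 := Pool.Agent.Q151.PL.dsc_ge hd2
  obtain ⟨x, y, hx, hy, hxy, hle⟩ := Pool.Agent.Q151.PL.uni (dsc p : ℤ) t u
    (by exact_mod_cast hD5) (by exact_mod_cast ht) (by exact_mod_cast hu) htu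
  have hle' : (x : ℝ) + y * √(dsc p : ℝ) ≤ (((t : ℝ) + u * √(dsc p : ℝ)) / 2) ^ 6 := by
    exact_mod_cast hle
  have hpos : 0 ≤ ((t : ℝ) + u * √(dsc p : ℝ)) / 2 := by positivity
  have hB : (x : ℝ) + y * √(dsc p : ℝ) ≤ B ^ 6 := hle'.trans (pow_le_pow_left₀ hpos hb 6)
  have hx1 : (1 : ℝ) ≤ x := by exact_mod_cast hx
  have hy1 : (1 : ℝ) ≤ y := by exact_mod_cast hy
  have key : ∃ x₁ y₁ : ℤ, 1 ≤ y₁ ∧ (y₁ : ℝ) ≤ B ^ 6 ∧ x₁ ^ 2 - (p : ℤ) * y₁ ^ 2 = 1 := by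
    by_cases h4 : p % 4 = 1
    · have e : dsc p = p := by unfold dsc; rw [if_pos h4]
      rw [e] at hxy hB hD5
      refine ⟨x, y, hy, ?_, hxy⟩
      have hs1 : 1 ≤ √(p : ℝ) := by
        rw [Real.one_le_sqrt]
        exact_mod_cast (by omega : 1 ≤ p)
      nlinarith
    · have e : dsc p = 4 * p := by unfold dsc; rw [if_neg h4]
      rw [e] at hxy hB hD5
      refine ⟨x, 2 * y, by omega, ?_, ?_⟩
      · have hs1 : 2 ≤ √((4 * p : ℕ) : ℝ) := by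
          apply Real.le_sqrt_of_sq_le
          push_cast
          have : (2 : ℝ) ≤ p := by exact_mod_cast hd2
          linarith
        push_cast at hB hs1 ⊢
        nlinarith
      · push_cast at hxy
        rw [← hxy]
        ring
  obtain ⟨x₁, y₁, h1, h2, h3⟩ := key
  obtain ⟨x₀, y₀, h4, h5⟩ := Pool.Agent.Q144.UF.exists_fund (p : ℤ) x₁ y₁
    (by exact_mod_cast hp.one_lt.le) h1 h3
  refine ⟨x₀, y₀, h4, le_trans ?_ h2⟩
  exact_mod_cast h5

/-- The number of primes of an interval with a small regulator. -/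
theorem small_card : ∃ C : ℝ, 1 ≤ C ∧ ∀ (m x H : ℕ) (S : Finset ℕ), C ≤ m →
    C * m ≤ Real.log x → H ≤ x →
    (∀ p ∈ S, p.Prime ∧ x < p ∧ p ≤ x + H ∧
      SmallUnit (dsc p) (Real.exp (√m / 96 * Real.log p))) →
    (S.card : ℝ) ≤ C * (m : ℝ) ^ 7 * Real.log x ^ 4 *
      ((x : ℝ) ^ (1 / (16 * (m : ℝ))) + H * (x : ℝ) ^ (-(1 / (16 * (m : ℝ))))) := by
  obtain ⟨C, hC1, hC⟩ := cover
  refine ⟨max (2 * C) 16, le_max_of_le_right (by norm_num), ?_⟩
  intro m x H S hCm hCx hHx hS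
  have hm16 : (16 : ℝ) ≤ m := (le_max_right _ _).trans hCm
  have hm1 : 1 ≤ m := by
    have : (1 : ℝ) ≤ m := by linarith
    exact_mod_cast this
  have hCx' : 2 * C * m ≤ Real.log x :=
    (mul_le_mul_of_nonneg_right (le_max_left _ _) (by linarith)).trans hCx
  have hx0 : (0 : ℝ) < x := by
    by_contra hcon
    have : (x : ℝ) = 0 := le_antisymm (not_lt.1 hcon) (Nat.cast_nonneg x)
    rw [this, Real.log_zero] at hCx'
    nlinarith
  have hlx : 16 ≤ Real.log x := by nlinarith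
  have hxl : Real.log x + 1 ≤ x := by
    have := Real.add_one_le_exp (Real.log x)
    rwa [Real.exp_log hx0] at this
  have hx17 : (17 : ℝ) ≤ x := by linarith
  have hCx2 : C ≤ x := by nlinarith
  have hsm : (4 : ℝ) ≤ √m := by
    apply Real.le_sqrt_of_sq_le
    linarith
  have hsm2 : √(m : ℝ) ^ 2 = m := Real.sq_sqrt (by linarith)
  have hsmm : √(m : ℝ) ≤ m := by nlinarith
  obtain ⟨σ, hσ⟩ : ∃ σ : ℝ, σ = √(m : ℝ) / 8 := ⟨_, rfl⟩
  have hσ0 : 0 ≤ σ := by rw [hσ]; positivity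
  have h1 := hC (x : ℝ) H σ m S hCx2 hm1 hσ0 (by rw [hσ]; nlinarith) (by nlinarith)
    (Nat.cast_nonneg _) (by exact_mod_cast hHx) (by
      intro p hp
      obtain ⟨hpp, hxp, hpH, hsu⟩ := hS p hp
      have hxp' : (x : ℝ) ≤ p := by exact_mod_cast hxp.le
      refine ⟨hpp, hxp', by exact_mod_cast hpH, ?_⟩
      obtain ⟨X, Y, hf, hY⟩ := fund_of_small hpp hsu
      refine ⟨X, Y, hf, hY.trans ?_⟩
      have hp2 : (p : ℝ) ≤ (x : ℝ) ^ 2 := by
        have e1 : (p : ℝ) ≤ x + H := by exact_mod_cast hpH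
        have e2 : (H : ℝ) ≤ x := by exact_mod_cast hHx
        nlinarith
      have hlp : Real.log p ≤ 2 * Real.log x := by
        have e1 := Real.log_le_log (by linarith) hp2
        rw [Real.log_pow] at e1
        exact_mod_cast e1
      rw [← Real.exp_nat_mul, Real.rpow_def_of_pos hx0]
      apply Real.exp_le_exp.2
      push_cast
      rw [hσ]
      nlinarith)
  refine h1.trans ?_
  -- simplification
  obtain ⟨R, hR⟩ : ∃ R : ℝ, R = (x : ℝ) ^ (1 / (16 * (m : ℝ))) := ⟨_, rfl⟩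
  have hR0 : 0 < R := by rw [hR]; exact Real.rpow_pos_of_pos hx0 _
  have hR2 : (x : ℝ) ^ (1 / (8 * (m : ℝ))) = R * R := by
    rw [hR, ← Real.rpow_add hx0]
    congr 1
    field_simp
    norm_num
  have hRi : (x : ℝ) ^ (-(1 / (16 * (m : ℝ)))) = R⁻¹ := by
    rw [hR, Real.rpow_neg hx0.le]
  rw [hR2, hRi, ← hR]
  have h2 : 2 * σ * Real.log x + 1 ≤ m * Real.log x := by
    rw [hσ]
    nlinarith
  have h3 : (H / (R * R) + 1) * R = R + H * R⁻¹ := by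
    field_simp
    ring
  have h4 : 0 ≤ R + H * R⁻¹ := by positivity
  have h5 : 0 ≤ ((m : ℝ) ^ 2 * Real.log x) ^ 3 := by positivity
  calc (H / (R * R) + 1) * (2 * σ * Real.log x + 1) * (C * R * ((m : ℝ) ^ 2 * Real.log x) ^ 3)
      = (C * ((H / (R * R) + 1) * R) * ((m : ℝ) ^ 2 * Real.log x) ^ 3) *
        (2 * σ * Real.log x + 1) := by ring
    _ ≤ (C * ((H / (R * R) + 1) * R) * ((m : ℝ) ^ 2 * Real.log x) ^ 3) *
        (m * Real.log x) := by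
        apply mul_le_mul_of_nonneg_left h2
        rw [h3]
        positivity
    _ = C * (m : ℝ) ^ 7 * Real.log x ^ 4 * ((H / (R * R) + 1) * R) := by ring
    _ = C * (m : ℝ) ^ 7 * Real.log x ^ 4 * (R + H * R⁻¹) := by rw [h3]
    _ ≤ max (2 * C) 16 * (m : ℝ) ^ 7 * Real.log x ^ 4 * (R + H * R⁻¹) := by
        have e1 : C ≤ max (2 * C) 16 := le_trans (by linarith) (le_max_left _ _)
        have e2 : 0 ≤ (m : ℝ) ^ 7 * Real.log x ^ 4 * (R + H * R⁻¹) := by positivity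
        nlinarith

end Pool.Agent.Helper50.VSI
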