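import Pool.Agent.Helper50.VSI.Mean

/-!
# The mean value of the class numbers of the fields `ℚ(√p)`: sum over the blocks
-/

set_option autoImplicit false

namespace Pool.Agent.Helper50.VSI

open Finset Pool.Agent.Q276.PL Pool.Agent.Q276.PL.Mean NumberField
open scoped Classical

noncomputable section

theorem dyadic (a C : ℝ) (Y0 : ℕ) (hC0 : 0 ≤ C) (ha0 : 0 ≤ a) (ha3 : a ≤ 3) : ∃ C₁ : ℝ, 0 ≤ C₁ ∧
    ∀ h : ℕ → ℕ, IsCl h → ∀ (W : ℝ) (N0 : ℕ), 1 ≤ W → (∀ Y ≥ Y0, Y ≤ N0 →
      ∑ p ∈ (Finset.Ioc Y (2 * Y)).filter Nat.Prime, (h p : ℝ) ≤ C * W * G a Y) →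
    ∀ N : ℕ, N ≤ N0 → 3 ≤ N → ∑ p ∈ (Finset.Icc 1 N).filter Nat.Prime, (h p : ℝ) ≤
      C₁ * W * G a N := by
  obtain ⟨C2, hC2, hT⟩ := cl_le
  obtain ⟨N1, hN1⟩ : ∃ N1, N1 = max (2 * Y0 + 2) ⌈Real.exp 40⌉₊ := ⟨_, rfl⟩
  have hNY : 2 * Y0 + 2 ≤ N1 := by rw [hN1]; exact le_max_left _ _
  have hNe : Real.exp 40 ≤ N1 := by
    refine (Nat.le_ceil _).trans ?_
    rw [hN1]
    exact_mod_cast le_max_right _ _
  have he : (40 : ℝ) + 1 ≤ Real.exp 40 := Real.add_one_le_exp 40
  have hN1r : (41 : ℝ) ≤ N1 := by linarith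
  have hl1 : 40 ≤ Real.log N1 := (Real.le_log_iff_exp_le (by linarith)).2 hNe
  obtain ⟨B, hB⟩ : ∃ B : ℝ, B = N1 * (C2 * √(N1 : ℝ) * Real.log (4 * N1)) := ⟨_, rfl⟩
  have hl4 : 0 ≤ Real.log (4 * (N1 : ℝ)) := Real.log_nonneg (by linarith)
  have hB0 : 0 ≤ B := by rw [hB]; positivity
  obtain ⟨C₁, hC₁⟩ : ∃ C₁ : ℝ, C₁ = 3 * (C + C2) + B * Real.log N1 ^ 3 := ⟨_, rfl⟩
  have hC₁a : 3 * (C + C2) ≤ C₁ := by
    rw [hC₁]
    have : 0 ≤ B * Real.log N1 ^ 3 := by positivity
    linarith
  have hC₁b : B * Real.log N1 ^ 3 ≤ C₁ := by rw [hC₁]; linarith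
  have hC₁0 : 0 ≤ C₁ := by linarith
  refine ⟨C₁, hC₁0, fun h hh W N0 hW hb N => ?_⟩
  have hcl : ∀ p : ℕ, p.Prime → (h p : ℝ) ≤ C2 * √(p : ℝ) * Real.log (4 * p) := by
    intro p hp
    obtain ⟨K, i1, i2, hrk, hex, hcl⟩ := hh p hp
    rw [hcl]
    exact hT K p hp.one_lt hp.prime.squarefree hrk hex
  induction N using Nat.strong_induction_on with
  | _ N ih =>
    intro hN0 hN3
    have hN3r : (3 : ℝ) ≤ N := by exact_mod_cast hN3
    have hlN : 1 ≤ Real.log N := by
      rw [Real.le_log_iff_exp_le (by linarith)]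
      linarith [Real.exp_one_lt_d9]
    have hG0 : 0 ≤ G a N := by
      unfold G
      have : 0 ≤ Real.log N := by linarith
      positivity
    by_cases hN : N1 ≤ N
    · have hNe' : Real.exp 40 ≤ N := hNe.trans (by exact_mod_cast hN)
      have hN41 : 41 ≤ N := by
        have : (41 : ℝ) ≤ N := by linarith
        exact_mod_cast this
      obtain ⟨g1, g2⟩ := G_half a ha0 ha3 N hNe'
      obtain ⟨Y, hY⟩ : ∃ Y, Y = N / 2 := ⟨_, rfl⟩
      rw [← hY] at g1
      have hY3 : 3 ≤ Y := by omega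
      have h1 := ih Y (by omega) (by omega) hY3
      have h2 := hb Y (by omega) (by omega)
      have hsub : (Finset.Icc 1 N).filter Nat.Prime ⊆ ((Finset.Icc 1 Y).filter Nat.Prime ∪
          (Finset.Ioc Y (2 * Y)).filter Nat.Prime) ∪ ({N} : Finset ℕ).filter Nat.Prime := by
        intro p hp
        rw [mem_filter, Finset.mem_Icc] at hp
        rw [mem_union, mem_union, mem_filter, mem_filter, mem_filter, Finset.mem_Icc,
          Finset.mem_Ioc, mem_singleton]
        by_cases c1 : p ≤ Y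
        · exact Or.inl (Or.inl ⟨⟨hp.1.1, c1⟩, hp.2⟩)
        · by_cases c2 : p ≤ 2 * Y
          · exact Or.inl (Or.inr ⟨⟨by omega, c2⟩, hp.2⟩)
          · exact Or.inr ⟨by omega, hp.2⟩
      have h3 : ∑ p ∈ (Finset.Icc 1 N).filter Nat.Prime, (h p : ℝ) ≤
          (∑ p ∈ (Finset.Icc 1 Y).filter Nat.Prime, (h p : ℝ) +
          ∑ p ∈ (Finset.Ioc Y (2 * Y)).filter Nat.Prime, (h p : ℝ)) +
          ∑ p ∈ ({N} : Finset ℕ).filter Nat.Prime, (h p : ℝ) := by
        refine (sum_le_sum_of_subset_of_nonneg hsub fun p _ _ => Nat.cast_nonneg _).trans ?_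
        refine (sum_union_le' _ _ _ fun p => Nat.cast_nonneg _).trans ?_
        gcongr
        exact sum_union_le' _ _ _ fun p => Nat.cast_nonneg _
      have h4 : ∑ p ∈ ({N} : Finset ℕ).filter Nat.Prime, (h p : ℝ) ≤ C2 * G a N := by
        by_cases hpr : N.Prime
        · rw [filter_singleton, if_pos hpr, sum_singleton]
          refine (hcl N hpr).trans ?_
          rw [mul_assoc]
          exact mul_le_mul_of_nonneg_left g2 (by linarith)
        · rw [filter_singleton, if_neg hpr, sum_empty]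
          have : 0 ≤ C2 := by linarith
          positivity
      have h4' : C2 * G a N ≤ C2 * W * G a N := by
        have : 0 ≤ C2 * G a N := mul_nonneg (by linarith) hG0
        nlinarith
      have hW0 : 0 ≤ W := by linarith
      have h5 : C₁ * W * G a Y ≤ C₁ * W * (9 / 20 * G a N) :=
        mul_le_mul_of_nonneg_left g1 (mul_nonneg hC₁0 hW0)
      have h6 : C * W * G a Y ≤ C * W * (9 / 20 * G a N) :=
        mul_le_mul_of_nonneg_left g1 (mul_nonneg hC0 hW0)
      have h7 : (9 / 20 * C₁ + 9 / 20 * C + C2) * (W * G a N) ≤ C₁ * (W * G a N) := by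
        apply mul_le_mul_of_nonneg_right _ (mul_nonneg hW0 hG0)
        linarith
      linarith
    · push Not at hN
      have hNr : (N : ℝ) ≤ N1 := by exact_mod_cast hN.le
      have h1 : ∑ p ∈ (Finset.Icc 1 N).filter Nat.Prime, (h p : ℝ) ≤ B := by
        have h2 : ∀ p ∈ (Finset.Icc 1 N).filter Nat.Prime, (h p : ℝ) ≤
            C2 * √(N1 : ℝ) * Real.log (4 * N1) := by
          intro p hp
          rw [mem_filter, Finset.mem_Icc] at hp
          have hpr : (p : ℝ) ≤ N1 := by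
            exact_mod_cast (by omega : p ≤ N1)
          have hp0 : (1 : ℝ) ≤ p := by exact_mod_cast hp.1.1
          refine (hcl p hp.2).trans ?_
          apply mul_le_mul
          · exact mul_le_mul_of_nonneg_left (Real.sqrt_le_sqrt hpr) (by linarith)
          · exact Real.log_le_log (by linarith) (by linarith)
          · exact Real.log_nonneg (by linarith)
          · positivity
        refine (sum_le_card_nsmul _ _ _ h2).trans ?_
        rw [nsmul_eq_mul, hB]
        apply mul_le_mul_of_nonneg_right _ (by positivity)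
        have h3 : ((Finset.Icc 1 N).filter Nat.Prime).card ≤ N := by
          refine (card_filter_le _ _).trans ?_
          rw [Nat.card_Icc]
          omega
        calc ((((Finset.Icc 1 N).filter Nat.Prime).card : ℕ) : ℝ) ≤ N := by exact_mod_cast h3
          _ ≤ N1 := hNr
      have h8 : 1 / Real.log N1 ^ 3 ≤ G a N := by
        unfold G
        have h9 : 1 ≤ (N : ℝ) ^ (3 / 2 : ℝ) := Real.one_le_rpow (by linarith) (by norm_num)
        have h10 : Real.log N ^ a ≤ Real.log N1 ^ 3 := by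
          have h11 : Real.log N ≤ Real.log N1 := Real.log_le_log (by linarith) hNr
          calc Real.log N ^ a ≤ Real.log N1 ^ a := Real.rpow_le_rpow (by linarith) h11 ha0
            _ ≤ Real.log N1 ^ (3 : ℝ) :=
                Real.rpow_le_rpow_of_exponent_le (by linarith) ha3
            _ = Real.log N1 ^ 3 := by
                rw [← Real.rpow_natCast]
                norm_num
        have h12 : 0 < Real.log N ^ a := Real.rpow_pos_of_pos (by linarith) _
        exact div_le_div₀ (by positivity) h9 h12 h10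
      have hp3 : 0 < Real.log N1 ^ 3 := by positivity
      calc ∑ p ∈ (Finset.Icc 1 N).filter Nat.Prime, (h p : ℝ) ≤ B := h1
        _ = B * Real.log N1 ^ 3 * (1 / Real.log N1 ^ 3) := by field_simp
        _ ≤ C₁ * G a N := mul_le_mul hC₁b h8 (by positivity) hC₁0
        _ ≤ C₁ * W * G a N := by
            have : 0 ≤ C₁ * G a N := mul_nonneg hC₁0 hG0
            nlinarith

/-- The mean value of the class number over the primes. -/
theorem mean2 : ∃ C : ℝ, 0 ≤ C ∧ ∀ h : ℕ → ℕ, IsCl h → ∀ N : ℕ, 16 ≤ N →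
    ∑ p ∈ (Finset.Icc 1 N).filter Nat.Prime, (h p : ℝ) ≤
      C * √(Real.log (Real.log N)) * ((N : ℝ) ^ (3 / 2 : ℝ) / Real.log N ^ (5 / 2 : ℝ)) := by
  obtain ⟨C, Y0, hC0, hb⟩ := block2
  obtain ⟨C₁, hC₁0, hC₁⟩ := dyadic (5 / 2) C (max Y0 1) hC0 (by norm_num) (by norm_num)
  refine ⟨C₁, hC₁0, fun h hh N hN => ?_⟩
  have hNr : (16 : ℝ) ≤ N := by exact_mod_cast hN
  have hlog16 : Real.exp 1 ≤ Real.log 16 := by
    have h2 := Real.log_two_gt_d9
    have h3 : Real.log 16 = 4 * Real.log 2 := by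
      rw [show (16 : ℝ) = 2 ^ 4 by norm_num, Real.log_pow]
      norm_num
    rw [h3]
    linarith [Real.exp_one_lt_d9]
  have hlN : Real.exp 1 ≤ Real.log N := hlog16.trans (Real.log_le_log (by norm_num) hNr)
  have hllN : 1 ≤ Real.log (Real.log N) := by
    rw [Real.le_log_iff_exp_le (by linarith [Real.exp_pos 1])]
    exact hlN
  have hW : 1 ≤ √(Real.log (Real.log N)) := Real.one_le_sqrt.2 hllN
  refine hC₁ h hh _ N hW (fun Y hY hYN => ?_) N le_rfl (by omega)
  obtain ⟨h1, h2⟩ := hb h hh Y ((le_max_left _ _).trans hY)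
  refine h2.trans ?_
  have hY1 : 1 ≤ Y := (le_max_right _ _).trans hY
  have hYr : (1 : ℝ) ≤ Y := by exact_mod_cast hY1
  have hYN' : (Y : ℝ) ≤ N := by exact_mod_cast hYN
  have hlY : 0 < Real.log Y := by
    by_contra hcon
    have : Real.log Y = 0 := le_antisymm (not_lt.1 hcon) (Real.log_nonneg hYr)
    rw [this, Real.log_zero] at h1
    linarith
  have h3 : √(Real.log (Real.log Y)) ≤ √(Real.log (Real.log N)) := by
    apply Real.sqrt_le_sqrt
    exact Real.log_le_log hlY (Real.log_le_log (by linarith) hYN')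
  have hG0 : 0 ≤ G (5 / 2) Y := by
    unfold G
    positivity
  apply mul_le_mul_of_nonneg_right _ hG0
  exact mul_le_mul_of_nonneg_left h3 hC0

end

end Pool.Agent.Helper50.VSI
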