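import Pool.Agent.Helper50.VSI.MeanS
import Pool.Agent.Helper50.VSI.Mean2

/-!
# Assembly: the mean value of the class numbers of the fields `ℚ(√p)` in short intervals
-/

set_option autoImplicit false

namespace Pool.Agent.Helper50.VSI

open Finset Pool.Agent.Q276.PL Pool.Agent.Q276.PL.Mean NumberField
open scoped Classical

noncomputable section

theorem one_le_loglog {N : ℕ} (hN : 16 ≤ N) : 1 ≤ Real.log (Real.log N) := by
  have hNr : (16 : ℝ) ≤ N := by exact_mod_cast hN
  have hlog16 : Real.exp 1 ≤ Real.log 16 := by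
    have h2 := Real.log_two_gt_d9
    have h3 : Real.log 16 = 4 * Real.log 2 := by
      rw [show (16 : ℝ) = 2 ^ 4 by norm_num, Real.log_pow]
      norm_num
    rw [h3]
    linarith [Real.exp_one_lt_d9]
  have hlN : Real.exp 1 ≤ Real.log N := hlog16.trans (Real.log_le_log (by norm_num) hNr)
  rw [Real.le_log_iff_exp_le (by linarith [Real.exp_pos 1])]
  exact hlN

/-- The mean value of the class number over the primes of a short interval. -/
theorem meanS (v : ℝ) (hv : 1 / 2 < v) : ∃ C : ℝ, 0 ≤ C ∧ ∀ h : ℕ → ℕ, IsCl h →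
    ∀ x H : ℕ, 16 ≤ x → (x : ℝ) ^ v ≤ H → H ≤ x →
    ∑ p ∈ (Finset.Ioc x (x + H)).filter Nat.Prime, (h p : ℝ) ≤
      C * √(Real.log (Real.log x)) * (H * √(x : ℝ) / Real.log x ^ (5 / 2 : ℝ)) := by
  obtain ⟨C, Y0, hC0, hb⟩ := blockS v hv
  obtain ⟨C2, hC2, hT⟩ := cl_le
  obtain ⟨Z, hZ⟩ : ∃ Z : ℕ, Z = max Y0 16 := ⟨_, rfl⟩
  have hZ16 : (16 : ℝ) ≤ Z := by
    rw [hZ]
    exact_mod_cast le_max_right Y0 16
  have hlZ : 0 < Real.log Z := Real.log_pos (by linarith)
  have hlZ8 : 0 ≤ Real.log (8 * Z) := Real.log_nonneg (by linarith)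
  refine ⟨C + 2 * C2 * Real.log (8 * Z) * Real.log Z ^ (5 / 2 : ℝ), by positivity, ?_⟩
  intro h hh x H hx hH1 hH2
  have hxr : (16 : ℝ) ≤ x := by exact_mod_cast hx
  have hlx : 0 < Real.log x := Real.log_pos (by linarith)
  have hW : 1 ≤ √(Real.log (Real.log x)) := Real.one_le_sqrt.2 (one_le_loglog hx)
  have hg0 : 0 ≤ H * √(x : ℝ) / Real.log x ^ (5 / 2 : ℝ) := by positivity
  by_cases hxY : Y0 ≤ x
  · refine (hb h hh x hxY H hH1 hH2).trans ?_
    apply mul_le_mul_of_nonneg_right _ hg0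
    apply mul_le_mul_of_nonneg_right _ (by positivity)
    have : 0 ≤ 2 * C2 * Real.log (8 * Z) * Real.log Z ^ (5 / 2 : ℝ) := by positivity
    linarith
  · have hxZ : (x : ℝ) ≤ Z := by
      have : x ≤ Z := by
        rw [hZ]
        exact le_trans (by omega) (le_max_left Y0 16)
      exact_mod_cast this
    have hcl : ∀ p ∈ (Finset.Ioc x (x + H)).filter Nat.Prime, (h p : ℝ) ≤
        2 * C2 * √(x : ℝ) * Real.log (8 * Z) := by
      intro p hp
      rw [mem_filter, Finset.mem_Ioc] at hp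
      obtain ⟨⟨hp1, hp2⟩, hpp⟩ := hp
      obtain ⟨K, i1, i2, hrk, hex, hcl⟩ := hh p hpp
      have h1 := hT K p hpp.one_lt hpp.prime.squarefree hrk hex
      rw [← hcl] at h1
      have hp2x : (p : ℝ) ≤ 2 * x := by exact_mod_cast (by omega : p ≤ 2 * x)
      have hp0 : (1 : ℝ) ≤ p := by exact_mod_cast hpp.one_lt.le
      have hsp : √(p : ℝ) ≤ 2 * √(x : ℝ) := by
        have e1 : √(p : ℝ) ≤ √(2 * (x : ℝ)) := Real.sqrt_le_sqrt hp2x
        rw [Real.sqrt_mul (by norm_num)] at e1
        have : √(2 : ℝ) ≤ 2 := by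
          rw [Real.sqrt_le_left (by norm_num)]
          norm_num
        exact e1.trans (mul_le_mul_of_nonneg_right this (Real.sqrt_nonneg _))
      refine h1.trans ?_
      calc C2 * √(p : ℝ) * Real.log (4 * p) ≤ C2 * (2 * √(x : ℝ)) * Real.log (8 * Z) := by
            apply mul_le_mul
            · exact mul_le_mul_of_nonneg_left hsp (by linarith)
            · exact Real.log_le_log (by linarith) (by linarith)
            · exact Real.log_nonneg (by linarith)
            · positivity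
        _ = _ := by ring
    refine (sum_le_card_nsmul _ _ _ hcl).trans ?_
    rw [nsmul_eq_mul]
    have h3 : (((Finset.Ioc x (x + H)).filter Nat.Prime).card : ℝ) ≤ H := by
      have : ((Finset.Ioc x (x + H)).filter Nat.Prime).card ≤ H := by
        refine (card_filter_le _ _).trans ?_
        rw [Nat.card_Ioc]
        omega
      exact_mod_cast this
    have h4 : Real.log x ^ (5 / 2 : ℝ) ≤ Real.log Z ^ (5 / 2 : ℝ) :=
      Real.rpow_le_rpow hlx.le (Real.log_le_log (by linarith) hxZ) (by norm_num)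
    have h5 : 0 < Real.log x ^ (5 / 2 : ℝ) := Real.rpow_pos_of_pos hlx _
    have h6 : 0 ≤ 2 * C2 * √(x : ℝ) * Real.log (8 * Z) := by positivity
    calc (((Finset.Ioc x (x + H)).filter Nat.Prime).card : ℝ) *
          (2 * C2 * √(x : ℝ) * Real.log (8 * Z)) ≤
        H * (2 * C2 * √(x : ℝ) * Real.log (8 * Z)) := mul_le_mul_of_nonneg_right h3 h6
      _ = 2 * C2 * Real.log (8 * Z) * Real.log x ^ (5 / 2 : ℝ) *
          (H * √(x : ℝ) / Real.log x ^ (5 / 2 : ℝ)) := by
          field_simp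
      _ ≤ (C + 2 * C2 * Real.log (8 * Z) * Real.log Z ^ (5 / 2 : ℝ)) *
          √(Real.log (Real.log x)) * (H * √(x : ℝ) / Real.log x ^ (5 / 2 : ℝ)) := by
          apply mul_le_mul_of_nonneg_right _ hg0
          have e1 : 2 * C2 * Real.log (8 * Z) * Real.log x ^ (5 / 2 : ℝ) ≤
              2 * C2 * Real.log (8 * Z) * Real.log Z ^ (5 / 2 : ℝ) :=
            mul_le_mul_of_nonneg_left h4 (by positivity)
          have e2 : 0 ≤ C + 2 * C2 * Real.log (8 * Z) * Real.log Z ^ (5 / 2 : ℝ) := by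
            positivity
          nlinarith

end

end Pool.Agent.Helper50.VSI
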