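import Pool.Agent.Helper50.VSI.Cover

/-!
# Class numbers and regulators of the fields of primes in very short intervals
-/

set_option autoImplicit false

namespace Pool.Agent.Helper50.VSI

open Pool.Agent.Q276.PL Pool.Agent.Q276.PL.Mean NumberField
open Pool.Agent.H38R2.CG (Lone)

/-- The regulator of the field `ℚ(√p)` is at least `s log p` and its class number is at most
`√p / s`. -/
def Large (s : ℝ) (p : ℕ) : Prop :=
  ∀ (K : Type) [Field K] [NumberField K], Module.finrank ℚ K = 2 → (∃ x : K, x ^ 2 = (p : K)) →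
    s * Real.log p ≤ Units.regulator K ∧ (classNumber K : ℝ) ≤ √(p : ℝ) / s

/-- Without a small unit, the regulator is large and the class number is small. -/
theorem large_of_not : ∃ C : ℝ, 1 ≤ C ∧ ∀ (s : ℝ) (p : ℕ), 0 < s → p.Prime →
    ¬ SmallUnit (dsc p) (Real.exp (s * Real.log p)) → Large (s / C) p := by
  obtain ⟨C, hC1, hC⟩ := lone_le
  refine ⟨3 * C, by linarith, ?_⟩
  intro s p hs hp hns K _ _ hrk hex
  have hp2 : (2 : ℝ) ≤ p := by exact_mod_cast hp.two_le
  have hlp : 0 < Real.log p := Real.log_pos (by linarith)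
  have hsq : Squarefree p := hp.prime.squarefree
  constructor
  · obtain ⟨t, u, ht, hu, hn, hR⟩ := Pool.Agent.Q210.PL.reg K p hp.one_lt hsq hrk hex
    have ht1 : (1 : ℝ) ≤ t := by exact_mod_cast ht
    have hbig : s * Real.log p < Units.regulator K := by
      rw [hR, Real.lt_log_iff_exp_lt (by positivity)]
      by_contra hcon
      exact hns ⟨t, u, ht, hu, hn, not_lt.1 hcon⟩
    have h1 : s / (3 * C) * Real.log p ≤ s * Real.log p := by
      apply mul_le_mul_of_nonneg_right _ hlp.le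
      apply div_le_self hs.le
      linarith
    linarith
  · have hsl : 0 < s * Real.log p := mul_pos hs hlp
    have h1 := cl_good K p hp.one_lt hsq hrk hex _ hsl hns
    have hD5 := five_le_dsc hp.one_lt hsq
    have h2 := hC (dsc p) (Pool.Agent.Q149.PL.isFund_dsc hp.one_lt hsq) (by omega)
    have h3 : Real.log (dsc p) ≤ 3 * Real.log p := by
      have e1 : (dsc p : ℝ) ≤ (p : ℝ) ^ 3 := by
        have e2 : (dsc p : ℝ) ≤ 4 * p := by exact_mod_cast Pool.Agent.Q149.PL.dsc_le p
        nlinarith [mul_le_mul hp2 hp2 (by norm_num) (by linarith : (0 : ℝ) ≤ p)]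
      have e3 : (0 : ℝ) < dsc p := by exact_mod_cast (by omega : 0 < dsc p)
      have e4 := Real.log_le_log e3 e1
      rw [Real.log_pow] at e4
      exact_mod_cast e4
    have h4 : Lone (dsc p) ≤ 3 * C * Real.log p := by nlinarith
    calc (classNumber K : ℝ) ≤ √(p : ℝ) * Lone (dsc p) / (s * Real.log p) := h1
      _ ≤ √(p : ℝ) * (3 * C * Real.log p) / (s * Real.log p) := by
          apply div_le_div_of_nonneg_right _ hsl.le
          exact mul_le_mul_of_nonneg_left h4 (Real.sqrt_nonneg _)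
      _ = √(p : ℝ) / (s / (3 * C)) := by
          field_simp

theorem large_mono {s s' : ℝ} {p : ℕ} (hp : p.Prime) (hs : 0 < s) (hss : s ≤ s')
    (h : Large s' p) : Large s p := by
  intro K _ _ hrk hex
  obtain ⟨h1, h2⟩ := h K hrk hex
  have hlp : 0 ≤ Real.log p := Real.log_nonneg (by exact_mod_cast hp.one_lt.le)
  constructor
  · exact (mul_le_mul_of_nonneg_right hss hlp).trans h1
  · refine h2.trans ?_
    exact div_le_div_of_nonneg_left (Real.sqrt_nonneg _) hs hss

/-- The primes of `(x, x + H]` for which this fails. -/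
theorem exceptions_card : ∃ C : ℝ, 1 ≤ C ∧ ∀ (m x H : ℕ) (S : Finset ℕ), C ≤ m →
    C * m ≤ Real.log x → H ≤ x →
    (∀ p ∈ S, p.Prime ∧ x < p ∧ p ≤ x + H ∧ ¬ Large (√m / C) p) →
    (S.card : ℝ) ≤ C * (m : ℝ) ^ 7 * Real.log x ^ 4 *
      ((x : ℝ) ^ (1 / (16 * (m : ℝ))) + H * (x : ℝ) ^ (-(1 / (16 * (m : ℝ))))) := by
  obtain ⟨C₁, hC₁1, hC₁⟩ := small_card
  obtain ⟨C₂, hC₂1, hC₂⟩ := large_of_not
  refine ⟨max C₁ (96 * C₂), le_max_of_le_left hC₁1, ?_⟩
  intro m x H S hCm hCx hHx hS
  have hm0 : (0 : ℝ) < m := by linarith [(le_max_left C₁ (96 * C₂)).trans hCm]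
  have hC96 : 0 < 96 * C₂ := by linarith
  have h1 := hC₁ m x H S ((le_max_left _ _).trans hCm)
    ((mul_le_mul_of_nonneg_right (le_max_left _ _) hm0.le).trans hCx) hHx (by
      intro p hp
      obtain ⟨h1, h2, h3, h4⟩ := hS p hp
      refine ⟨h1, h2, h3, ?_⟩
      by_contra hcon
      have hs0 : 0 < √(m : ℝ) / 96 := by positivity
      have h5 := hC₂ _ p hs0 h1 hcon
      refine h4 (large_mono h1 (by positivity) ?_ h5)
      rw [div_div]
      exact div_le_div_of_nonneg_left (Real.sqrt_nonneg _) hC96 (le_max_right _ _))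
  refine h1.trans ?_
  have e2 : 0 ≤ (m : ℝ) ^ 7 * Real.log x ^ 4 * ((x : ℝ) ^ (1 / (16 * (m : ℝ))) +
      H * (x : ℝ) ^ (-(1 / (16 * (m : ℝ))))) := by positivity
  have := mul_le_mul_of_nonneg_right (le_max_left C₁ (96 * C₂)) e2
  linarith

end Pool.Agent.Helper50.VSI
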