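import Pool.Graph.R_pool_sql_team_seeded_3997aac3.Q276.PL.All

/-!
# Primes with a small Pell solution in very short intervals: one dyadic range

If all the members of a set of integers are prime and have a common prime factor with the same
`M`, they are prime factors of `M`.
-/

set_option autoImplicit false

namespace Pool.Agent.Helper50.VSI

open Pool.Agent.Q276.PL

/-- primes `≥ D` which divide a fixed `M` -/
theorem card_dvd (S : Finset ℕ) (D : ℝ) (M : ℤ) (hD : 1 < D) (hM : M ≠ 0)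
    (h : ∀ p ∈ S, p.Prime ∧ D ≤ p ∧ (p : ℤ) ∣ M) :
    (S.card : ℝ) * Real.log D ≤ Real.log |(M : ℝ)| := by
  have h1 : (∏ p ∈ S, p) ∣ M.natAbs := by
    refine Finset.prod_primes_dvd _ (fun p hp => (h p hp).1.prime) (fun p hp => ?_)
    exact Int.natCast_dvd.1 (h p hp).2.2
  have h2 : ∏ p ∈ S, p ≤ M.natAbs := Nat.le_of_dvd (Int.natAbs_pos.2 hM) h1
  have h3 : D ^ S.card ≤ |(M : ℝ)| := by
    calc D ^ S.card = ∏ _p ∈ S, D := (Finset.prod_const D).symm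
      _ ≤ ∏ p ∈ S, (p : ℝ) :=
          Finset.prod_le_prod (fun p _ => by linarith) (fun p hp => (h p hp).2.1)
      _ = ((∏ p ∈ S, p : ℕ) : ℝ) := by push_cast; rfl
      _ ≤ (M.natAbs : ℝ) := by exact_mod_cast h2
      _ = |(M : ℝ)| := by
          rw [Nat.cast_natAbs]
          push_cast
          rfl
  have h4 := Real.log_le_log (by positivity) h3
  rwa [Real.log_pow] at h4

/-- One interval, one dyadic range. -/
theorem loc : ∃ C : ℝ, 1 ≤ C ∧ ∀ (D V σ : ℝ) (m : ℕ) (S : Finset ℕ), C ≤ D →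
    1 ≤ m → 0 ≤ σ → 2 * (2 * σ + 1) ^ 2 ≤ m → C * m ≤ Real.log D → 1 ≤ V → V ≤ D ^ σ →
    (∀ p ∈ S, p.Prime ∧ D ≤ p ∧ (p : ℝ) ≤ 2 * D ∧
      ∃ x y : ℤ, Fund p x y ∧ V ≤ y ∧ (y : ℝ) < 2 * V) →
    (∀ p ∈ S, ∀ q ∈ S, |(p : ℝ) - q| ≤ D ^ (1 / (8 * (m : ℝ)))) →
    (S.card : ℝ) ≤ C * D ^ (1 / (16 * (m : ℝ))) * ((m : ℝ) ^ 2 * Real.log D) ^ 3 := by
  obtain ⟨C, hC1, hC⟩ := pig_true
  refine ⟨2 * C + 2, by linarith, ?_⟩
  intro D V σ m S hD hm hσ hm2 hCm hV hVD hS hSd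
  have hm0 : (1 : ℝ) ≤ m := by exact_mod_cast hm
  have hD1 : 1 < D := by linarith
  have hlD : 1 ≤ Real.log D := by nlinarith
  have hS' : ∀ d ∈ S.image (fun p : ℕ => (p : ℤ)), ∃ p ∈ S, d = (p : ℤ) := by
    intro d hd
    obtain ⟨p, hp, rfl⟩ := Finset.mem_image.1 hd
    exact ⟨p, hp, rfl⟩
  obtain ⟨M, hM0, hM, E, hE, hEc, hEg⟩ := hC D V σ 1 m (S.image (fun p : ℕ => (p : ℤ)))
    (by linarith) hm hσ hm2 (by nlinarith) hV hVD le_rfl hD1.le (by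
      intro d hd
      obtain ⟨p, hp, rfl⟩ := hS' d hd
      obtain ⟨h1, h2, h3, x, y, h4, h5, h6⟩ := hS p hp
      refine ⟨by exact_mod_cast h2, by exact_mod_cast h3, ?_, x, y, h4, h5, h6⟩
      exact Int.squarefree_natCast.2 h1.prime.squarefree) (by
      intro d hd d' hd'
      obtain ⟨p, hp, rfl⟩ := hS' d hd
      obtain ⟨q, hq, rfl⟩ := hS' d' hd'
      exact_mod_cast hSd p hp q hq)
  obtain ⟨T, hT⟩ : ∃ T : Finset ℕ, T = S.filter (fun p : ℕ => (p : ℤ) ∉ E) := ⟨_, rfl⟩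
  have hT1 : (T.card : ℝ) ≤ C * (m : ℝ) ^ 2 := by
    have h1 := card_dvd T D M hD1 hM0 (by
      intro p hp
      rw [hT, Finset.mem_filter] at hp
      obtain ⟨h1, h2, -, -⟩ := hS p hp.1
      refine ⟨h1, h2, ?_⟩
      have h3 := hEg (p : ℤ) (Finset.mem_sdiff.2 ⟨Finset.mem_image.2 ⟨p, hp.1, rfl⟩, hp.2⟩)
      have h4 : 1 < Int.gcd (p : ℤ) M := by exact_mod_cast h3
      have h5 : Int.gcd (p : ℤ) M ∣ p := by
        have := Int.gcd_dvd_left (p : ℤ) M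
        exact_mod_cast this
      have h6 : Int.gcd (p : ℤ) M = p := by
        rcases (Nat.dvd_prime h1).1 h5 with h | h
        · omega
        · exact h
      have h7 := Int.gcd_dvd_right (p : ℤ) M
      rwa [h6] at h7)
    have h2 : (T.card : ℝ) * Real.log D ≤ C * (m : ℝ) ^ 2 * Real.log D := h1.trans hM
    exact le_of_mul_le_mul_right h2 (by linarith)
  have hsub : S ⊆ T ∪ S.filter (fun p : ℕ => (p : ℤ) ∈ E) := by
    intro p hp
    rw [Finset.mem_union, hT, Finset.mem_filter, Finset.mem_filter]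
    by_cases h : (p : ℤ) ∈ E
    · exact Or.inr ⟨hp, h⟩
    · exact Or.inl ⟨hp, h⟩
  have h2 : (S.filter (fun p : ℕ => (p : ℤ) ∈ E)).card ≤ E.card := by
    refine Finset.card_le_card_of_injOn (fun p : ℕ => (p : ℤ)) (fun p hp => ?_) (fun a _ b _ h => ?_)
    · exact (Finset.mem_filter.1 hp).2
    · exact Nat.cast_injective (R := ℤ) h
  have h3 : S.card ≤ T.card + E.card :=
    ((Finset.card_le_card hsub).trans (Finset.card_union_le _ _)).trans (by omega)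
  have h4 : (S.card : ℝ) ≤ T.card + E.card := by exact_mod_cast h3
  have hR : 1 ≤ D ^ (1 / (16 * (m : ℝ))) := Real.one_le_rpow hD1.le (by positivity)
  have hQ : 1 ≤ (m : ℝ) ^ 2 * Real.log D := by nlinarith
  have hQ3 : (m : ℝ) ^ 2 ≤ ((m : ℝ) ^ 2 * Real.log D) ^ 3 := by
    have e1 : (m : ℝ) ^ 2 ≤ (m : ℝ) ^ 2 * Real.log D := by nlinarith
    have e2 : (m : ℝ) ^ 2 * Real.log D ≤ ((m : ℝ) ^ 2 * Real.log D) ^ 3 :=
      le_self_pow₀ hQ (by norm_num)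
    linarith
  have h5 : C * (m : ℝ) ^ 2 ≤ C * D ^ (1 / (16 * (m : ℝ))) * ((m : ℝ) ^ 2 * Real.log D) ^ 3 := by
    have e1 : (m : ℝ) ^ 2 ≤ D ^ (1 / (16 * (m : ℝ))) * ((m : ℝ) ^ 2 * Real.log D) ^ 3 := by
      nlinarith [pow_pos (by linarith : 0 < (m : ℝ) ^ 2 * Real.log D) 3]
    have := mul_le_mul_of_nonneg_left e1 (by linarith : 0 ≤ C)
    linarith
  have h6 : 0 ≤ D ^ (1 / (16 * (m : ℝ))) * ((m : ℝ) ^ 2 * Real.log D) ^ 3 := by positivity
  calc (S.card : ℝ) ≤ T.card + E.card := h4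
    _ ≤ C * (m : ℝ) ^ 2 + C * 1 * D ^ (1 / (16 * (m : ℝ))) * ((m : ℝ) ^ 2 * Real.log D) ^ 3 := by
        linarith
    _ ≤ (2 * C + 2) * D ^ (1 / (16 * (m : ℝ))) * ((m : ℝ) ^ 2 * Real.log D) ^ 3 := by
        nlinarith

end Pool.Agent.Helper50.VSI
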