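import Pool.Agent.Helper50.VSI.SI2
import Pool.Graph.R_pool_sql_team_seeded_3997aac3.Q149.PL.CLN

/-!
# The first moment of L(1, chi) over the fields of the primes of a short interval, all classes
-/

set_option autoImplicit false

namespace Pool.Agent.Helper50.VSI.SI

open Finset Filter Pool.Agent.H38R2.CG Pool.Agent.H38R2.CG2 Pool.Agent.Q276.PL
open scoped Classical

/-- a sum over a short interval, class by class -/
lemma block_short (X H : ℕ) (hX : 1 ≤ X) (w : ℕ → ℝ)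
    (hw : ∀ D : ℕ, 1 ≤ D → 0 ≤ w D) (S : Finset ℕ) (hS : S ⊆ (Finset.Ioc X (X + H)).filter IsFund)
    (hw1 : ∀ D ∈ S, w D = 1) (B : ℝ) (hB : ∀ r : ℕ, FundRes 2 r →
      ∑ D ∈ FD 2 r X ((H : ℝ) / X), w D * Lone D ≤ B) (hB0 : 0 ≤ B) :
    ∑ D ∈ S, Lone D ≤ Qz 2 * B := by
  have hfl := floor_eq X H hX
  have h1 : ∑ D ∈ S, Lone D = ∑ r ∈ Finset.range (Qz 2), ∑ D ∈ S.filter (fun D => D % Qz 2 = r),
      Lone D := by
    symm
    apply Finset.sum_fiberwise_of_maps_to
    intro D _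
    exact Finset.mem_range.2 (Nat.mod_lt _ (AS1h.Qz_pos 2))
  rw [h1]
  have h2 : ∀ r ∈ Finset.range (Qz 2), ∑ D ∈ S.filter (fun D => D % Qz 2 = r), Lone D ≤ B := by
    intro r _
    by_cases hr : FundRes 2 r
    · refine le_trans ?_ (hB r hr)
      have hsub : S.filter (fun D => D % Qz 2 = r) ⊆ FD 2 r X ((H : ℝ) / X) := by
        intro D hD
        rw [Finset.mem_filter] at hD
        have h3 := hS hD.1
        rw [Finset.mem_filter] at h3
        unfold FD DD
        rw [hfl, Finset.mem_filter, Finset.mem_filter]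
        exact ⟨⟨h3.1, hD.2⟩, h3.2⟩
      calc ∑ D ∈ S.filter (fun D => D % Qz 2 = r), Lone D =
            ∑ D ∈ S.filter (fun D => D % Qz 2 = r), w D * Lone D := by
            refine Finset.sum_congr rfl fun D hD => ?_
            rw [hw1 D (Finset.mem_filter.1 hD).1, one_mul]
        _ ≤ _ := by
            refine Finset.sum_le_sum_of_subset_of_nonneg hsub fun D hD _ => ?_
            unfold FD DD at hD
            rw [Finset.mem_filter, Finset.mem_filter, Finset.mem_Ioc] at hD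
            exact mul_nonneg (hw D (by omega)) (Pool.Agent.Q79.PL.lnn D hD.2)
    · have hemp : S.filter (fun D => D % Qz 2 = r) = ∅ := by
        rw [Finset.filter_eq_empty_iff]
        intro D hD hDr
        apply hr
        rw [← hDr]
        exact AS1h.fundRes 2 D (Finset.mem_filter.1 (hS hD)).2
      rw [hemp, Finset.sum_empty]
      exact hB0
  calc _ ≤ ∑ _r ∈ Finset.range (Qz 2), B := Finset.sum_le_sum h2
    _ = Qz 2 * B := by rw [Finset.sum_const, Finset.card_range, nsmul_eq_mul]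

/-- discriminants `p` and `4 p` in a short interval -/
lemma disc_short (δ : ℝ) (hδ0 : 0 < δ) (hδ1 : δ ≤ 1 / 64) : ∃ (A : ℝ) (X0 : ℕ), 0 ≤ A ∧
    ∀ X ≥ X0, ∀ H : ℕ, (X : ℝ) ^ (1 / 2 + 4 * δ) ≤ H → H ≤ X →
    ∑ D ∈ (Finset.Ioc X (X + H)).filter (fun D => IsFund D ∧ ∃ p : ℕ, p.Prime ∧
      (D = p ∨ D = 4 * p)), Lone D ≤ A * (H / Real.log X) := by
  obtain ⟨C0, hC0, hB⟩ := Pool.Agent.Q79.PL.p_BH δ hδ0 (by linarith)
  obtain ⟨XB, hXB⟩ := hB 2 le_rfl 3 (by norm_num)
  obtain ⟨A, X0, hA0, hA⟩ := class_short δ hδ0 hδ1 C0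
  refine ⟨Qz 2 * A, max (max X0 XB) 17, by positivity, fun X hX H hH1 hH2 => ?_⟩
  have hX1 : X0 ≤ X := (le_max_left _ _).trans ((le_max_left _ _).trans hX)
  have hX2 : XB ≤ X := (le_max_right _ _).trans ((le_max_left _ _).trans hX)
  have hX3 : 17 ≤ X := (le_max_right _ _).trans hX
  obtain ⟨ρ, hρ, hρ1, hGG⟩ := hXB X hX2
  have hX17 : (17 : ℝ) ≤ X := by exact_mod_cast hX3
  have hlog : 0 < Real.log X := Real.log_pos (by linarith)
  have hprod : ∏ q ∈ (Finset.Icc 3 2).filter Nat.Prime, (1 - (1 : ℝ) / q) = 1 := by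
    have : Finset.Icc 3 2 = (∅ : Finset ℕ) := Finset.Icc_eq_empty (by norm_num)
    rw [this, Finset.filter_empty, Finset.prod_empty]
  rw [hprod, mul_one] at hGG
  have h5 := block_short X H (by omega) (wt ρ)
    (fun D hD => APh.wt_nonneg (by omega) (by linarith) hρ D hD)
    ((Finset.Ioc X (X + H)).filter (fun D => IsFund D ∧ ∃ p : ℕ, p.Prime ∧
      (D = p ∨ D = 4 * p))) (fun D hD => by
        rw [Finset.mem_filter] at hD ⊢
        exact ⟨hD.1, hD.2.1⟩) (fun D hD => by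
      rw [Finset.mem_filter, Finset.mem_Ioc] at hD
      obtain ⟨h6, h7, p, hp, hDp⟩ := hD
      exact APh.wt_one hX3 (by linarith) hρ hρ1 h6.1 hp hDp)
    (A * (H / Real.log X)) (hA X hX1 H hH1 hH2 (PA 3 X) ρ hρ hGG) (by positivity)
  refine h5.trans (le_of_eq ?_)
  ring

/-- The first moment of `L(1, χ)` over the fields of the primes of a short interval. -/
theorem lone_short (w : ℝ) (hw : 1 / 2 < w) : ∃ (C : ℝ) (X0 : ℕ), 0 ≤ C ∧ ∀ X ≥ X0, ∀ H : ℕ,
    (X : ℝ) ^ w ≤ H → H ≤ X →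
    ∑ p ∈ (Finset.Ioc X (X + H)).filter Nat.Prime, Lone (dsc p) ≤ C * (H / Real.log X) := by
  obtain ⟨δ, hδ⟩ : ∃ δ : ℝ, δ = min (1 / 64) ((w - 1 / 2) / 4) := ⟨_, rfl⟩
  have hδ0 : 0 < δ := by
    rw [hδ]
    exact lt_min (by norm_num) (by linarith)
  have hδ1 : δ ≤ 1 / 64 := by rw [hδ]; exact min_le_left _ _
  have hδw : 1 / 2 + 4 * δ ≤ w := by
    have : δ ≤ (w - 1 / 2) / 4 := by rw [hδ]; exact min_le_right _ _
    linarith
  obtain ⟨A, X0, hA0, hA⟩ := disc_short δ hδ0 hδ1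
  refine ⟨5 * A, max X0 3, by positivity, fun X hX H hH1 hH2 => ?_⟩
  have hX1 : X0 ≤ X := (le_max_left _ _).trans hX
  have hX3 : 3 ≤ X := (le_max_right _ _).trans hX
  have hXr : (3 : ℝ) ≤ X := by exact_mod_cast hX3
  have hX0' : (0 : ℝ) < X := by linarith
  have hl : 1 ≤ Real.log X := by
    rw [Real.le_log_iff_exp_le hX0']
    linarith [Real.exp_one_lt_d9]
  have hHδ : (X : ℝ) ^ (1 / 2 + 4 * δ) ≤ H :=
    (Real.rpow_le_rpow_of_exponent_le (by linarith) hδw).trans hH1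
  have h1 := hA X hX1 H hHδ hH2
  have h2 := hA (4 * X) (by omega) (4 * H) (by
    push_cast
    rw [Real.mul_rpow (by norm_num) hX0'.le]
    have e1 : (4 : ℝ) ^ (1 / 2 + 4 * δ) ≤ (4 : ℝ) ^ (1 : ℝ) :=
      Real.rpow_le_rpow_of_exponent_le (by norm_num) (by linarith)
    rw [Real.rpow_one] at e1
    exact mul_le_mul e1 hHδ (by positivity) (by norm_num)) (by omega)
  have hl4 : Real.log X ≤ Real.log ((4 * X : ℕ) : ℝ) := by
    apply Real.log_le_log hX0'
    push_cast
    linarith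
  -- split
  have hsplit : ∑ p ∈ (Finset.Ioc X (X + H)).filter Nat.Prime, Lone (dsc p) =
      ∑ p ∈ ((Finset.Ioc X (X + H)).filter Nat.Prime).filter (fun p => dsc p = p), Lone (dsc p) +
      ∑ p ∈ ((Finset.Ioc X (X + H)).filter Nat.Prime).filter (fun p => ¬ dsc p = p),
        Lone (dsc p) := (sum_filter_add_sum_filter_not _ _ _).symm
  have e1 : ∑ p ∈ ((Finset.Ioc X (X + H)).filter Nat.Prime).filter (fun p => dsc p = p),
      Lone (dsc p) ≤ ∑ D ∈ (Finset.Ioc X (X + H)).filter (fun D => IsFund D ∧ ∃ p : ℕ, p.Prime ∧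
        (D = p ∨ D = 4 * p)), Lone D := by
    have : ∑ p ∈ ((Finset.Ioc X (X + H)).filter Nat.Prime).filter (fun p => dsc p = p),
        Lone (dsc p) = ∑ D ∈ ((Finset.Ioc X (X + H)).filter Nat.Prime).filter
          (fun p => dsc p = p), Lone D := by
      refine sum_congr rfl fun p hp => ?_
      rw [mem_filter] at hp
      rw [hp.2]
    rw [this]
    refine sum_le_sum_of_subset_of_nonneg ?_ ?_
    · intro p hp
      rw [mem_filter, mem_filter] at hp
      rw [mem_filter]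
      refine ⟨hp.1.1, ?_, p, hp.1.2, Or.inl rfl⟩
      have := Pool.Agent.Q149.PL.isFund_dsc hp.1.2.one_lt hp.1.2.prime.squarefree
      rwa [hp.2] at this
    · intro D hD _
      rw [mem_filter] at hD
      exact Pool.Agent.Q79.PL.lnn _ hD.2.1
  have e2 : ∑ p ∈ ((Finset.Ioc X (X + H)).filter Nat.Prime).filter (fun p => ¬ dsc p = p),
      Lone (dsc p) ≤ ∑ D ∈ (Finset.Ioc (4 * X) (4 * X + 4 * H)).filter (fun D => IsFund D ∧
        ∃ p : ℕ, p.Prime ∧ (D = p ∨ D = 4 * p)), Lone D := by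
    have : ∑ p ∈ ((Finset.Ioc X (X + H)).filter Nat.Prime).filter (fun p => ¬ dsc p = p),
        Lone (dsc p) = ∑ D ∈ (((Finset.Ioc X (X + H)).filter Nat.Prime).filter
          (fun p => ¬ dsc p = p)).image dsc, Lone D := by
      rw [sum_image]
      intro a _ b _ hab
      exact Pool.Agent.Q149.PL.dsc_inj hab
    rw [this]
    refine sum_le_sum_of_subset_of_nonneg ?_ ?_
    · intro D hD
      rw [mem_image] at hD
      obtain ⟨p, hp, rfl⟩ := hD
      rw [mem_filter, mem_filter, Finset.mem_Ioc] at hp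
      have h4 : dsc p = 4 * p := by
        rcases Pool.Agent.Q149.PL.dsc_or p with h | h
        · exact absurd h hp.2
        · exact h
      rw [mem_filter, Finset.mem_Ioc]
      refine ⟨⟨by omega, by omega⟩, Pool.Agent.Q149.PL.isFund_dsc hp.1.2.one_lt
        hp.1.2.prime.squarefree, p, hp.1.2, Or.inr h4⟩
    · intro D hD _
      rw [mem_filter] at hD
      exact Pool.Agent.Q79.PL.lnn _ hD.2.1
  have h2' : A * (((4 * H : ℕ) : ℝ) / Real.log ((4 * X : ℕ) : ℝ)) ≤ A * (4 * (H / Real.log X)) := by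
    apply mul_le_mul_of_nonneg_left _ hA0
    push_cast at hl4 ⊢
    rw [← mul_div_assoc]
    exact div_le_div_of_nonneg_left (by positivity) (by linarith) hl4
  rw [hsplit]
  linarith

end Pool.Agent.Helper50.VSI.SI
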