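import Pool.Agent.Helper50.VSI.Large
import Pool.Agent.Helper50.VSI.SI3
import Pool.Graph.R_pool_sql_team_seeded_3997aac3.Q276.PL.Mean2

/-!
# The mean value of the class numbers of the fields `ℚ(√p)` in short intervals
-/

set_option autoImplicit false

namespace Pool.Agent.Helper50.VSI

open Finset Pool.Agent.Q276.PL Pool.Agent.Q276.PL.Mean NumberField
open Pool.Agent.H38R2.CG (Lone)
open scoped Classical

noncomputable section

theorem blockS (v : ℝ) (hv : 1 / 2 < v) : ∃ (C : ℝ) (Y0 : ℕ), 0 ≤ C ∧ ∀ h : ℕ → ℕ, IsCl h →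
    ∀ Y ≥ Y0, ∀ H : ℕ, (Y : ℝ) ^ v ≤ H → H ≤ Y →
    ∑ p ∈ (Finset.Ioc Y (Y + H)).filter Nat.Prime, (h p : ℝ) ≤
      C * √(Real.log (Real.log Y)) * (H * √(Y : ℝ) / Real.log Y ^ (5 / 2 : ℝ)) := by
  obtain ⟨C1, Y1, hC1, hL⟩ := SI.lone_short v hv
  obtain ⟨C2, hC2, hT⟩ := cl_le
  obtain ⟨C3, hC3, hS⟩ := small_card
  obtain ⟨A, hA⟩ : ∃ A : ℝ, A = max (max (Real.exp C3) ((480 * (C3 + 2)) ^ 2)) 9 := ⟨_, rfl⟩
  refine ⟨2 * C1 * (96 * 22) + 16 * C3 * C2, max Y1 ⌈Real.exp A⌉₊, by positivity,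
    fun h hh Y hY H hHv hHY => ?_⟩
  have hY1 : Y1 ≤ Y := (le_max_left _ _).trans hY
  have hYA : Real.exp A ≤ Y := by
    refine (Nat.le_ceil _).trans ?_
    exact_mod_cast (le_max_right _ _).trans hY
  have hY0 : (0 : ℝ) < Y := (Real.exp_pos _).trans_le hYA
  have hA9 : 9 ≤ A := by rw [hA]; exact le_max_right _ _
  have hY10 : (10 : ℝ) ≤ Y := by
    have := Real.add_one_le_exp A
    linarith
  obtain ⟨l, hl⟩ : ∃ l : ℝ, l = Real.log Y := ⟨_, rfl⟩
  have hlA : A ≤ l := by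
    rw [hl, Real.le_log_iff_exp_le hY0]
    exact hYA
  have hl9 : 9 ≤ l := le_trans (by rw [hA]; exact le_max_right _ _) hlA
  have hle : Real.exp C3 ≤ l :=
    le_trans (by rw [hA]; exact (le_max_left _ _).trans (le_max_left _ _)) hlA
  have hlq : (480 * (C3 + 2)) ^ 2 ≤ l :=
    le_trans (by rw [hA]; exact (le_max_right _ _).trans (le_max_left _ _)) hlA
  have hl0 : 0 < l := by linarith
  obtain ⟨w, hw⟩ : ∃ w : ℝ, w = Real.log l := ⟨_, rfl⟩
  have hw1 : 1 ≤ w := by
    rw [hw, Real.le_log_iff_exp_le hl0]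
    linarith [Real.exp_one_lt_d9]
  have hwC : C3 ≤ w := by
    rw [hw, Real.le_log_iff_exp_le hl0]
    exact hle
  have hws : w ≤ 2 * √l := by
    have e1 := Real.add_one_le_exp (Real.log (√l))
    rw [Real.exp_log (by positivity), Real.log_sqrt hl0.le] at e1
    rw [hw]
    linarith
  have hsl : 480 * (C3 + 2) ≤ √l := by
    apply Real.le_sqrt_of_sq_le
    exact hlq
  have hss : √l * √l = l := Real.mul_self_sqrt hl0.le
  have hs0 : 0 < √l := by positivity
  have hrat : C3 + 2 ≤ l / (240 * w) := by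
    rw [le_div_iff₀ (by linarith)]
    nlinarith
  obtain ⟨m, hm⟩ : ∃ m : ℕ, m = ⌊l / (240 * w)⌋₊ := ⟨_, rfl⟩
  have hm1 : (m : ℝ) ≤ l / (240 * w) := by
    rw [hm]
    exact Nat.floor_le (by positivity)
  have hm2 : l / (240 * w) < m + 1 := by
    rw [hm]
    exact Nat.lt_floor_add_one _
  have hm3 : C3 ≤ m := by linarith
  have hm4 : (1 : ℝ) ≤ m := by linarith
  have hm5 : l / (480 * w) ≤ m := by
    have e1 : l / (240 * w) = 2 * (l / (480 * w)) := by
      field_simp
      norm_num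
    linarith
  have hmw : (m : ℝ) * (240 * w) ≤ l := by
    rwa [le_div_iff₀ (by linarith)] at hm1
  have hml : C3 * m ≤ l := by nlinarith
  have hm0 : (0 : ℝ) < m := by linarith
  -- the exceptional set
  obtain ⟨Bd, hBd⟩ : ∃ Bd : Finset ℕ, Bd = ((Finset.Ioc Y (Y + H)).filter Nat.Prime).filter
    (fun p => SmallUnit (dsc p) (Real.exp (√m / 96 * Real.log p))) := ⟨_, rfl⟩
  obtain ⟨R, hR⟩ : ∃ R : ℝ, R = (Y : ℝ) ^ (1 / (16 * (m : ℝ))) := ⟨_, rfl⟩
  have hRl : l ^ 15 ≤ R := by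
    rw [hR, Real.rpow_def_of_pos hY0, ← hl]
    have e1 : l ^ 15 = Real.exp (15 * w) := by
      rw [hw, show (15 : ℝ) = ((15 : ℕ) : ℝ) by norm_num, Real.exp_nat_mul, Real.exp_log hl0]
    rw [e1]
    apply Real.exp_le_exp.2
    rw [mul_one_div, le_div_iff₀ (by positivity)]
    linarith
  have hR0 : 0 < R := lt_of_lt_of_le (by positivity) hRl
  have hRR : R ≤ H * R⁻¹ := by
    rw [← div_eq_mul_inv, le_div_iff₀ hR0]
    have e1 : R * R = (Y : ℝ) ^ (1 / (8 * (m : ℝ))) := by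
      rw [hR, ← Real.rpow_add hY0]
      congr 1
      field_simp
      norm_num
    rw [e1]
    calc (Y : ℝ) ^ (1 / (8 * (m : ℝ))) ≤ (Y : ℝ) ^ v := by
          apply Real.rpow_le_rpow_of_exponent_le
          · linarith
          · have : 1 / (8 * (m : ℝ)) ≤ 1 / 8 := by
              apply div_le_div_of_nonneg_left (by norm_num) (by norm_num)
              linarith
            linarith
      _ ≤ H := hHv
  have hml' : (m : ℝ) ≤ l := by nlinarith
  have hH0 : (0 : ℝ) < H := lt_of_lt_of_le (by positivity) hHv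
  have hBc : (Bd.card : ℝ) ≤ 2 * C3 * (H / l ^ 4) := by
    have e1 := hS m Y H Bd hm3 (by rw [← hl]; exact hml) hHY (by
      intro p hp
      rw [hBd, mem_filter, mem_filter, Finset.mem_Ioc] at hp
      exact ⟨hp.1.2, hp.1.1.1, by omega, hp.2⟩)
    rw [Real.rpow_neg hY0.le, ← hR, ← hl] at e1
    calc (Bd.card : ℝ) ≤ C3 * (m : ℝ) ^ 7 * l ^ 4 * (R + H * R⁻¹) := e1
      _ ≤ C3 * l ^ 7 * l ^ 4 * (2 * (H * R⁻¹)) := by
          apply mul_le_mul
          · gcongr
          · linarith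
          · positivity
          · positivity
      _ = 2 * C3 * (H * l ^ 11 * R⁻¹) := by ring
      _ ≤ 2 * C3 * (H * l ^ 11 * (l ^ 15)⁻¹) := by
          apply mul_le_mul_of_nonneg_left _ (by positivity)
          apply mul_le_mul_of_nonneg_left _ (by positivity)
          exact inv_anti₀ (by positivity) hRl
      _ = 2 * C3 * (H / l ^ 4) := by
          field_simp
  have hX2 : ((2 * Y : ℕ) : ℝ) = 2 * Y := by push_cast; ring
  have hs2 : √(2 * (Y : ℝ)) ≤ 2 * √(Y : ℝ) := by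
    rw [Real.sqrt_mul (by norm_num)]
    have : √(2 : ℝ) ≤ 2 := by
      rw [Real.sqrt_le_left (by norm_num)]
      norm_num
    exact mul_le_mul_of_nonneg_right this (Real.sqrt_nonneg _)
  have hsm : 0 < √(m : ℝ) := by positivity
  obtain ⟨L, hLd⟩ : ∃ L : ℝ, L = √(m : ℝ) / 96 * l := ⟨_, rfl⟩
  have hL0 : 0 < L := by rw [hLd]; positivity
  -- pointwise
  have hpt : ∀ p ∈ (Finset.Ioc Y (Y + H)).filter Nat.Prime, (h p : ℝ) ≤
      2 * √(Y : ℝ) / L * Lone (dsc p) +
        (if p ∈ Bd then C2 * (2 * √(Y : ℝ)) * (4 * l) else 0) := by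
    intro p hp'
    have hp := hp'
    rw [mem_filter, Finset.mem_Ioc] at hp
    obtain ⟨⟨hp1, hp2⟩, hpp⟩ := hp
    obtain ⟨K, i1, i2, hrk, hex, hcl⟩ := hh p hpp
    have hsq : Squarefree p := hpp.prime.squarefree
    have hlone : 0 ≤ Lone (dsc p) :=
      Pool.Agent.Q79.PL.lnn _ (Pool.Agent.Q149.PL.isFund_dsc hpp.one_lt hsq)
    have hp0 : (0 : ℝ) < p := by exact_mod_cast hpp.pos
    have hYp : (Y : ℝ) ≤ p := by exact_mod_cast hp1.le
    have hsp : √(p : ℝ) ≤ 2 * √(Y : ℝ) := by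
      refine le_trans (Real.sqrt_le_sqrt ?_) hs2
      rw [← hX2]
      exact_mod_cast (by omega : p ≤ 2 * Y)
    split_ifs with hb
    · have h1 := hT K p hpp.one_lt hsq hrk hex
      rw [← hcl] at h1
      have hY2 : (2 : ℝ) ≤ Y := by linarith
      have h2 : Real.log (4 * (p : ℝ)) ≤ 4 * l := by
        have h3 : (4 * (p : ℝ)) ≤ (Y : ℝ) ^ 4 := by
          have h4 : (p : ℝ) ≤ 2 * Y := by
            rw [← hX2]
            exact_mod_cast (by omega : p ≤ 2 * Y)
          nlinarith [pow_pos (by linarith : (0 : ℝ) < Y) 3,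
            pow_le_pow_left₀ (by norm_num) hY2 3]
        calc Real.log (4 * (p : ℝ)) ≤ Real.log ((Y : ℝ) ^ 4) :=
              Real.log_le_log (by positivity) h3
          _ = 4 * l := by
              rw [Real.log_pow, hl]
              norm_num
      have h5 : 0 ≤ Real.log (4 * (p : ℝ)) := by
        apply Real.log_nonneg
        have : (1 : ℝ) ≤ p := by exact_mod_cast hpp.one_lt.le
        linarith
      have h6 : (h p : ℝ) ≤ C2 * (2 * √(Y : ℝ)) * (4 * l) := by
        refine h1.trans ?_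
        apply mul_le_mul _ h2 h5 (by positivity)
        exact mul_le_mul_of_nonneg_left hsp (by linarith)
      have h7 : 0 ≤ 2 * √(Y : ℝ) / L * Lone (dsc p) := by positivity
      linarith
    · have hns : ¬ SmallUnit (dsc p) (Real.exp (√m / 96 * Real.log p)) := by
        intro hsu
        apply hb
        rw [hBd, mem_filter]
        exact ⟨hp', hsu⟩
      have hlp : l ≤ Real.log p := by
        rw [hl]
        exact Real.log_le_log hY0 hYp
      have hLp : L ≤ √m / 96 * Real.log p := by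
        rw [hLd]
        exact mul_le_mul_of_nonneg_left hlp (by positivity)
      have h1 := cl_good K p hpp.one_lt hsq hrk hex _ (hL0.trans_le hLp) hns
      rw [← hcl] at h1
      refine h1.trans ?_
      rw [add_zero, show 2 * √(Y : ℝ) / L * Lone (dsc p) = 2 * √(Y : ℝ) * Lone (dsc p) / L by ring]
      exact div_le_div₀ (by positivity) (mul_le_mul_of_nonneg_right hsp hlone) hL0 hLp
  have hsum := sum_le_sum hpt
  rw [sum_add_distrib, ← mul_sum, ← sum_filter] at hsum
  have hsw : 1 ≤ √w := Real.one_le_sqrt.2 hw1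
  have hl52 : l ^ (5 / 2 : ℝ) = √l * l ^ 2 := by
    rw [show (5 / 2 : ℝ) = 1 / 2 + (2 : ℕ) by norm_num, Real.rpow_add hl0, Real.rpow_natCast,
      ← Real.sqrt_eq_rpow]
  obtain ⟨g, hG⟩ : ∃ g : ℝ, g = H * √(Y : ℝ) / (√l * l ^ 2) := ⟨_, rfl⟩
  have hG0 : 0 ≤ g := by rw [hG]; positivity
  -- first part
  have hA : 2 * √(Y : ℝ) / L * ∑ p ∈ (Finset.Ioc Y (Y + H)).filter Nat.Prime, Lone (dsc p) ≤
      2 * C1 * (96 * 22) * √w * g := by
    have h1 := hL Y hY1 H hHv hHY
    rw [← hl] at h1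
    have h3 : 0 ≤ C1 * (H / l) := by positivity
    -- `1 / √m ≤ 22 √w / √l`
    have h4 : √l ≤ 22 * √w * √(m : ℝ) := by
      have e1 : l ≤ 484 * (w * m) := by
        rw [div_le_iff₀ (by linarith)] at hm5
        nlinarith
      have e2 : √l ≤ √(484 * (w * m)) := Real.sqrt_le_sqrt e1
      have e3 : √(484 * (w * m)) = 22 * (√w * √(m : ℝ)) := by
        rw [Real.sqrt_mul (by norm_num), Real.sqrt_mul (by linarith),
          show (484 : ℝ) = 22 ^ 2 by norm_num, Real.sqrt_sq (by norm_num)]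
      rw [e3] at e2
      linarith
    have h5 : 1 / L ≤ 96 * 22 * √w / (√l * l) := by
      rw [div_le_div_iff₀ hL0 (by positivity), hLd]
      have : 96 * 22 * √w * (√(m : ℝ) / 96 * l) = (22 * √w * √(m : ℝ)) * l := by ring
      rw [this, one_mul]
      exact mul_le_mul_of_nonneg_right h4 hl0.le
    calc 2 * √(Y : ℝ) / L * ∑ p ∈ (Finset.Ioc Y (Y + H)).filter Nat.Prime, Lone (dsc p) ≤
        2 * √(Y : ℝ) / L * (C1 * (H / l)) := mul_le_mul_of_nonneg_left h1 (by positivity)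
      _ = (1 / L) * (2 * √(Y : ℝ) * (C1 * (H / l))) := by ring
      _ ≤ (96 * 22 * √w / (√l * l)) * (2 * √(Y : ℝ) * (C1 * (H / l))) :=
          mul_le_mul_of_nonneg_right h5 (by positivity)
      _ = 2 * C1 * (96 * 22) * √w * g := by
          rw [hG]
          field_simp
  -- second part
  have hB : ∑ a ∈ ((Finset.Ioc Y (Y + H)).filter Nat.Prime).filter (fun a => a ∈ Bd),
      C2 * (2 * √(Y : ℝ)) * (4 * l) ≤ 16 * C3 * C2 * √w * g := by
    rw [sum_const, nsmul_eq_mul]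
    have h1 : ((((Finset.Ioc Y (Y + H)).filter Nat.Prime).filter (fun a => a ∈ Bd)).card : ℝ) ≤
        Bd.card := by
      exact_mod_cast card_le_card fun a ha => (mem_filter.1 ha).2
    have h3 : 0 ≤ C2 * (2 * √(Y : ℝ)) * (4 * l) := by positivity
    have hsll : √l ≤ l := by nlinarith
    calc ((((Finset.Ioc Y (Y + H)).filter Nat.Prime).filter (fun a => a ∈ Bd)).card : ℝ) *
        (C2 * (2 * √(Y : ℝ)) * (4 * l)) ≤
        (2 * C3 * (H / l ^ 4)) * (C2 * (2 * √(Y : ℝ)) * (4 * l)) :=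
          mul_le_mul_of_nonneg_right (h1.trans hBc) h3
      _ = 16 * C3 * C2 * (H * √(Y : ℝ) / (l * l ^ 2)) := by
          field_simp
          ring
      _ ≤ 16 * C3 * C2 * (H * √(Y : ℝ) / (√l * l ^ 2)) := by
          apply mul_le_mul_of_nonneg_left _ (by positivity)
          apply div_le_div_of_nonneg_left (by positivity) (by positivity)
          exact mul_le_mul_of_nonneg_right hsll (by positivity)
      _ = 16 * C3 * C2 * 1 * g := by rw [hG, mul_one]
      _ ≤ 16 * C3 * C2 * √w * g := by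
          apply mul_le_mul_of_nonneg_right _ hG0
          exact mul_le_mul_of_nonneg_left hsw (by positivity)
  rw [← hl, ← hw, hl52, ← hG]
  have : (2 * C1 * (96 * 22) + 16 * C3 * C2) * √w * g =
      2 * C1 * (96 * 22) * √w * g + 16 * C3 * C2 * √w * g := by ring
  rw [this]
  linarith

end

end Pool.Agent.Helper50.VSI
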