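import Pool.Graph.R_pool_sql_team_seeded_3997aac3.Q79.PL.All

/-!
# The first moment of L(1, chi) over the fields of the primes of a short interval
-/

set_option autoImplicit false

namespace Pool.Agent.Helper50.VSI.SI

open Finset Filter Pool.Agent.H38R2.CG Pool.Agent.H38R2.CG2 Pool.Agent.Q276.PL
open scoped Classical

/-- few multiples in a short interval -/
lemma k_bound3 (Q r k X m H : ℕ) (hk : 1 ≤ k) :
    |∑ D ∈ ((Ioc X (X + H)).filter (fun D => D % Q = r)).filter (fun D => k ∣ D),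
      ((jacobiSym (D : ℤ) m : ℤ) : ℝ)| ≤ H * (k : ℝ)⁻¹ + 1 := by
  refine (Finset.abs_sum_le_sum_abs _ _).trans ?_
  refine (Finset.sum_le_card_nsmul _ _ 1 (fun D _ => LM2h.abs_jac _ _)).trans ?_
  rw [nsmul_eq_mul, mul_one]
  have h1 : (((Ioc X (X + H)).filter (fun D => D % Q = r)).filter (fun D => k ∣ D)).card ≤
      ((Ioc X (X + H)).filter (fun D => D ≡ 0 [MOD k])).card := by
    apply Finset.card_le_card
    intro D hD
    rw [mem_filter, mem_filter] at hD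
    rw [mem_filter]
    exact ⟨hD.1.1, (Nat.modEq_zero_iff_dvd).2 hD.2⟩
  have h2 := V0h.cntAP X (X + H) k 0 (by omega) hk
  have h3 := (abs_le.1 h2).2
  have h4 : (((X + H : ℕ) : ℝ) - X) / k = H * (k : ℝ)⁻¹ := by
    push_cast
    ring
  rw [h4] at h3
  have h5 : ((((Ioc X (X + H)).filter (fun D => D % Q = r)).filter (fun D => k ∣ D)).card : ℝ) ≤
      (((Ioc X (X + H)).filter (fun D => D ≡ 0 [MOD k])).card : ℝ) := by exact_mod_cast h1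
  linarith

lemma floor_eq (X H : ℕ) (hX : 1 ≤ X) : ⌊(1 + (H : ℝ) / X) * X⌋₊ = X + H := by
  have hX0 : (X : ℝ) ≠ 0 := by
    have : 0 < X := hX
    exact_mod_cast this.ne'
  have : (1 + (H : ℝ) / X) * X = ((X + H : ℕ) : ℝ) := by
    push_cast
    field_simp
  rw [this, Nat.floor_natCast]

/-- Cancellation of Jacobi symbols over the fundamental discriminants of a short interval. -/
lemma ns_short (C : ℝ) (hC : 0 < C)
    (hPV : ∀ (q : ℕ) (χ : DirichletCharacter ℂ q), 2 ≤ q → χ ≠ 1 →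
    ∀ a b : ℕ, ‖∑ n ∈ Finset.Ioc a b, χ (n : ZMod q)‖ ≤ C * √(q : ℝ) * Real.log q)
    (r : ℕ) (hr : FundRes 2 r) (X H : ℕ) (hX : 1 ≤ X) (hHX : H ≤ X) (P : Finset ℕ) (δ : ℝ)
    (hδ1 : δ ≤ 1) (C0 : ℕ) (ρ : ℕ → ℝ) (hρ : SWt 2 X P δ C0 ρ)
    (m : ℕ) (hm1 : 1 ≤ m) (hmQ : m.Coprime (Qz 2)) (hsq : ¬ IsSquare m) (Y : ℕ) (hY1 : 1 ≤ Y)
    (hYX : Y ≤ 2 * X) :
    |∑ D ∈ FD 2 r X ((H : ℝ) / X), wt ρ D * ((jacobiSym (D : ℤ) m : ℤ) : ℝ)| ≤
      (X : ℝ) ^ δ * (Y * (C * √(m : ℝ) * Real.log m) + H * (Y : ℝ)⁻¹ + √(2 * (X : ℝ))) := by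
  have hfl := floor_eq X H hX
  have hB2 : X + H ≤ 2 * X := by omega
  have hodd : Odd m := by
    have h2Q : 2 ∣ Qz 2 := dvd_trans (by norm_num) (LM2h.dvd16 2)
    have := Nat.Coprime.coprime_dvd_right h2Q hmQ
    exact Nat.coprime_two_right.1 this
  have hrQ := hr.1
  have hm0' : (0 : ℝ) < m := by exact_mod_cast hm1
  have hlogm : 0 ≤ Real.log (m : ℝ) := Real.log_natCast_nonneg m
  have hX0 : (0 : ℝ) < X := by exact_mod_cast hX
  obtain ⟨S, hS⟩ : ∃ S, S = (Ioc X (X + H)).filter (fun D => D % Qz 2 = r) := ⟨_, rfl⟩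
  have hS1 : ∀ D ∈ S, 1 ≤ D := by
    intro D hD
    rw [hS, mem_filter, mem_Ioc] at hD
    omega
  have hw : ∀ D ∈ S, wt ρ D = ∑ d ∈ (Finset.Icc 1 X).filter (fun d => d ∣ D), ρ d :=
    fun D hD => (T2_WT 2 X P δ C0 ρ hX hδ1 hρ D (hS1 D hD)).2
  obtain ⟨G, hG⟩ : ∃ G : ℝ, G = C * √(m : ℝ) * Real.log m := ⟨_, rfl⟩
  have hG0 : 0 ≤ G := by rw [hG]; positivity
  have hkb : ∀ k, 1 ≤ k → k.Coprime (Qz 2) →
      |∑ D ∈ S.filter (fun D => k ∣ D), ((jacobiSym (D : ℤ) m : ℤ) : ℝ)| ≤ G := by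
    intro k hk hkQ
    rw [hS, hG]
    exact V1h.k_bound C hC hPV m hodd hsq (Qz 2) r k hrQ hk hkQ hmQ X (X + H) (by omega)
  have hkb2 : ∀ k, 1 ≤ k →
      |∑ D ∈ S.filter (fun D => k ∣ D), ((jacobiSym (D : ℤ) m : ℤ) : ℝ)| ≤
        H * (k : ℝ)⁻¹ + 1 := by
    intro k hk
    rw [hS]
    exact k_bound3 (Qz 2) r k X m H hk
  have hXc : (0 : ℝ) < (X : ℝ) ^ δ := by positivity
  rw [← hG]
  rw [V1h.fsum hr hX hfl.symm hB2 (fun D => wt ρ D * ((jacobiSym (D : ℤ) m : ℤ) : ℝ)), ← hS]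
  obtain ⟨T, hT⟩ : ∃ T : ℕ → ℝ, T = fun e => |∑ D ∈ S.filter (fun D => e ^ 2 ∣ D),
    wt ρ D * ((jacobiSym (D : ℤ) m : ℤ) : ℝ)| := ⟨_, rfl⟩
  have hTw : ∀ e, T e = |∑ d ∈ Icc 1 X, ρ d * ∑ D ∈ S.filter (fun D => Nat.lcm (e ^ 2) d ∣ D),
      ((jacobiSym (D : ℤ) m : ℤ) : ℝ)| := by
    intro e
    rw [hT]
    exact congrArg abs (V1h.wsum S hw (fun D => ((jacobiSym (D : ℤ) m : ℤ) : ℝ)) (e ^ 2))
  have hT1 : ∀ e, 1 ≤ e → e.Coprime (Qz 2) → T e ≤ (X : ℝ) ^ δ * G := by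
    intro e he heQ
    rw [hTw]
    refine V1h.dsum hρ _ G hG0 ?_
    intro d hd hdQ
    refine hkb _ (Nat.lcm_pos (pow_pos he 2) hd) ?_
    exact Nat.Coprime.coprime_dvd_left (Nat.lcm_dvd_mul _ _)
      (Nat.Coprime.mul_left (Nat.Coprime.pow_left 2 heQ) hdQ)
  have hT2 : ∀ e, 1 ≤ e → T e ≤ (X : ℝ) ^ δ * (H * ((e : ℝ) ^ 2)⁻¹) +
      (if e ^ 2 ≤ 2 * X then (X : ℝ) ^ δ else 0) := by
    intro e he
    have he2 : 0 < e ^ 2 := pow_pos he 2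
    have h4 : (0 : ℝ) < (e : ℝ) ^ 2 := by exact_mod_cast he2
    split_ifs with hle
    · rw [hTw]
      have h5 := V1h.dsum (P := P) (C0 := C0) hρ (fun d => ∑ D ∈ S.filter (fun D =>
        Nat.lcm (e ^ 2) d ∣ D), ((jacobiSym (D : ℤ) m : ℤ) : ℝ)) (H * ((e : ℝ) ^ 2)⁻¹ + 1)
        (by positivity) (by
          intro d hd hdQ
          have h1 := hkb2 (Nat.lcm (e ^ 2) d) (Nat.lcm_pos he2 hd)
          refine h1.trans ?_
          have h2 : e ^ 2 ≤ Nat.lcm (e ^ 2) d :=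
            Nat.le_of_dvd (Nat.lcm_pos he2 hd) (Nat.dvd_lcm_left _ _)
          have h3 : (e : ℝ) ^ 2 ≤ ((Nat.lcm (e ^ 2) d : ℕ) : ℝ) := by exact_mod_cast h2
          have h6 := mul_le_mul_of_nonneg_left (inv_anti₀ h4 h3) (Nat.cast_nonneg (α := ℝ) H)
          linarith)
      refine h5.trans (le_of_eq ?_)
      ring
    · have h1 : S.filter (fun D => e ^ 2 ∣ D) = ∅ := by
        rw [Finset.filter_eq_empty_iff]
        intro D hD hdiv
        rw [hS, mem_filter, mem_Ioc] at hD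
        have := Nat.le_of_dvd (by omega) hdiv
        omega
      rw [hT]
      simp only
      rw [h1, Finset.sum_empty, abs_zero]
      positivity
  have hT0 : ∀ e, 0 ≤ T e := fun e => by rw [hT]; exact abs_nonneg _
  have hb1 : |∑ e ∈ (Icc 1 (2 * X)).filter (fun e => e.Coprime (Qz 2)),
        ((ArithmeticFunction.moebius e : ℤ) : ℝ) *
        ∑ D ∈ S.filter (fun D => e ^ 2 ∣ D), wt ρ D * ((jacobiSym (D : ℤ) m : ℤ) : ℝ)| ≤
      ∑ e ∈ (Icc 1 (2 * X)).filter (fun e => e.Coprime (Qz 2)), T e := by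
    refine (Finset.abs_sum_le_sum_abs _ _).trans ?_
    apply Finset.sum_le_sum
    intro e _
    rw [abs_mul, hT]
    have h1 : |((ArithmeticFunction.moebius e : ℤ) : ℝ)| ≤ 1 := by
      exact_mod_cast ArithmeticFunction.abs_moebius_le_one
    calc _ ≤ 1 * |∑ D ∈ S.filter (fun D => e ^ 2 ∣ D),
            wt ρ D * ((jacobiSym (D : ℤ) m : ℤ) : ℝ)| :=
          mul_le_mul_of_nonneg_right h1 (abs_nonneg _)
      _ = _ := one_mul _
  refine hb1.trans ?_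
  have hb2 : ∑ e ∈ (Icc 1 (2 * X)).filter (fun e => e.Coprime (Qz 2)), T e ≤
      ∑ e ∈ Ioc 0 Y, (X : ℝ) ^ δ * G +
        ∑ e ∈ Ioc Y (2 * X), ((X : ℝ) ^ δ * (H * ((e : ℝ) ^ 2)⁻¹) +
      (if e ^ 2 ≤ 2 * X then (X : ℝ) ^ δ else 0)) := by
    have h1 : (Icc 1 (2 * X)) = Ioc 0 Y ∪ Ioc Y (2 * X) := by
      rw [Finset.Ioc_union_Ioc_eq_Ioc (Nat.zero_le _) hYX]
      rfl
    have h2 : Disjoint (Ioc 0 Y) (Ioc Y (2 * X)) := by
      rw [Finset.disjoint_left]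
      intro a ha hb
      rw [mem_Ioc] at ha hb
      omega
    rw [h1, Finset.filter_union, Finset.sum_union (Finset.disjoint_filter_filter h2)]
    apply add_le_add
    · calc ∑ e ∈ (Ioc 0 Y).filter (fun e => e.Coprime (Qz 2)), T e ≤
          ∑ e ∈ (Ioc 0 Y).filter (fun e => e.Coprime (Qz 2)), (X : ℝ) ^ δ * G := by
            apply Finset.sum_le_sum
            intro e he
            rw [mem_filter, mem_Ioc] at he
            exact hT1 e he.1.1 he.2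
        _ ≤ ∑ e ∈ Ioc 0 Y, (X : ℝ) ^ δ * G :=
            Finset.sum_le_sum_of_subset_of_nonneg (Finset.filter_subset _ _)
              (fun _ _ _ => mul_nonneg hXc.le hG0)
    · calc ∑ e ∈ (Ioc Y (2 * X)).filter (fun e => e.Coprime (Qz 2)), T e ≤
          ∑ e ∈ (Ioc Y (2 * X)).filter (fun e => e.Coprime (Qz 2)),
            ((X : ℝ) ^ δ * (H * ((e : ℝ) ^ 2)⁻¹) +
              (if e ^ 2 ≤ 2 * X then (X : ℝ) ^ δ else 0)) := by
            apply Finset.sum_le_sum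
            intro e he
            rw [mem_filter, mem_Ioc] at he
            exact hT2 e (by omega)
        _ ≤ _ :=
            Finset.sum_le_sum_of_subset_of_nonneg (Finset.filter_subset _ _)
              (fun _ _ _ => by positivity)
  refine hb2.trans ?_
  rw [Finset.sum_const, Nat.card_Ioc, Finset.sum_add_distrib, ← Finset.mul_sum, ← Finset.mul_sum,
    nsmul_eq_mul, Nat.sub_zero]
  have hb3 : ∑ e ∈ Ioc Y (2 * X), ((e : ℝ) ^ 2)⁻¹ ≤ (Y : ℝ)⁻¹ := by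
    refine (sum_Ioc_inv_sq_le_sub (by omega) hYX).trans ?_
    have : (0 : ℝ) ≤ (((2 * X : ℕ) : ℝ))⁻¹ := by positivity
    linarith
  have hb4 : ∑ e ∈ Ioc Y (2 * X), (if e ^ 2 ≤ 2 * X then (X : ℝ) ^ δ else 0) ≤
      (X : ℝ) ^ δ * √(2 * (X : ℝ)) := by
    rw [← Finset.sum_filter, Finset.sum_const, nsmul_eq_mul, mul_comm]
    apply mul_le_mul_of_nonneg_left _ hXc.le
    have h1 : (Ioc Y (2 * X)).filter (fun e => e ^ 2 ≤ 2 * X) ⊆ Ioc 0 (Nat.sqrt (2 * X)) := by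
      intro e he
      rw [mem_filter, mem_Ioc] at he
      rw [mem_Ioc]
      refine ⟨by omega, ?_⟩
      rw [Nat.le_sqrt]
      nlinarith [he.2]
    have h2 := Finset.card_le_card h1
    rw [Nat.card_Ioc, Nat.sub_zero] at h2
    have h3 : ((Nat.sqrt (2 * X) : ℕ) : ℝ) ≤ √((2 * X : ℕ) : ℝ) := Real.nat_sqrt_le_real_sqrt
    have h4 : (((2 * X : ℕ) : ℝ)) = 2 * (X : ℝ) := by push_cast; ring
    rw [h4] at h3
    exact le_trans (by exact_mod_cast h2) h3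
  have hb5 : (X : ℝ) ^ δ * ((H : ℝ) * ∑ e ∈ Ioc Y (2 * X), ((e : ℝ) ^ 2)⁻¹) ≤
      (X : ℝ) ^ δ * (H * (Y : ℝ)⁻¹) := by gcongr
  calc _ ≤ (Y : ℝ) * ((X : ℝ) ^ δ * G) + ((X : ℝ) ^ δ * (H * (Y : ℝ)⁻¹) +
        (X : ℝ) ^ δ * √(2 * (X : ℝ))) := by
        gcongr
    _ = _ := by ring

end Pool.Agent.Helper50.VSI.SI
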