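import Pool.Agent.Helper50.VSI.SI

/-!
# The first moment of L(1, chi) over the fields of the primes of a short interval, assembly
-/

set_option autoImplicit false

namespace Pool.Agent.Helper50.VSI.SI

open Finset Filter Pool.Agent.H38R2.CG Pool.Agent.H38R2.CG2 Pool.Agent.Q276.PL
open scoped Classical

lemma er_one : ∃ N0 : ℕ, ∀ r, FundRes 2 r → ∀ N ≥ N0, LMh.Er 2 r N ≤ 1 := by
  have h : ∀ r : ℕ, ∃ N0 : ℕ, ∀ N ≥ N0, LMh.Er 2 r N ≤ 1 := by
    intro r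
    have h1 := (LMh.Er_tendsto 2 r).eventually (eventually_le_nhds (show (0 : ℝ) < 1 by norm_num))
    exact eventually_atTop.1 h1
  choose N0 hN0 using h
  refine ⟨(Finset.range (Qz 2)).sup N0, fun r hr N hN => ?_⟩
  exact hN0 r N (le_trans (Finset.le_sup (Finset.mem_range.2 hr.1)) hN)

/-- growth of powers -/
lemma growths (A δ : ℝ) (hδ : 0 < δ) : ∃ X0 : ℕ, ∀ X ≥ X0, 3 ≤ X ∧
    A * Real.log X + 4 ≤ (X : ℝ) ^ δ ∧ (1 + Real.log X) * Real.log X ≤ (X : ℝ) ^ δ ∧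
    A * (2 * √(X : ℝ)) * (2 * Real.log X) ≤ (X : ℝ) ^ (3 / 4 : ℝ) / 2 := by
  have hc : Tendsto (fun X : ℕ => (X : ℝ)) atTop atTop := tendsto_natCast_atTop_atTop
  have h1 : ∀ (k : ℕ) (s : ℝ), 0 < s → Tendsto (fun X : ℕ => (Real.log X) ^ k / (X : ℝ) ^ s)
      atTop (nhds 0) := fun k s hs => LMh.log_pow_lim k s hs
  have e1 := ((h1 1 δ hδ).const_mul A).add ((h1 0 δ hδ).const_mul 4)
  have e2 := (h1 1 δ hδ).add (h1 2 δ hδ)
  have e3 := (h1 1 (1 / 4) (by norm_num)).const_mul (A * 8)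
  simp only [mul_zero, add_zero] at e1 e2 e3
  have f1 := e1.eventually (eventually_le_nhds (show (0 : ℝ) < 1 by norm_num))
  have f2 := e2.eventually (eventually_le_nhds (show (0 : ℝ) < 1 by norm_num))
  have f3 := e3.eventually (eventually_le_nhds (show (0 : ℝ) < 1 by norm_num))
  obtain ⟨X0, hX0⟩ := eventually_atTop.1 ((f1.and (f2.and f3)).and (eventually_ge_atTop 3))
  refine ⟨X0, fun X hX => ?_⟩
  obtain ⟨⟨g1, g2, g3⟩, hX3⟩ := hX0 X hX
  have hXr : (3 : ℝ) ≤ X := by exact_mod_cast hX3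
  have hX0' : (0 : ℝ) < X := by linarith
  have hp : 0 < (X : ℝ) ^ δ := by positivity
  have hq : 0 < (X : ℝ) ^ (1 / 4 : ℝ) := by positivity
  refine ⟨hX3, ?_, ?_, ?_⟩
  · have h2 : A * Real.log X + 4 = (A * (Real.log X ^ 1 / (X : ℝ) ^ δ) +
        4 * (Real.log X ^ 0 / (X : ℝ) ^ δ)) * (X : ℝ) ^ δ := by
      field_simp
    rw [h2]
    calc _ ≤ 1 * (X : ℝ) ^ δ := mul_le_mul_of_nonneg_right g1 hp.le
      _ = _ := one_mul _
  · have h2 : (1 + Real.log X) * Real.log X = (Real.log X ^ 1 / (X : ℝ) ^ δ +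
        Real.log X ^ 2 / (X : ℝ) ^ δ) * (X : ℝ) ^ δ := by
      field_simp
    rw [h2]
    calc _ ≤ 1 * (X : ℝ) ^ δ := mul_le_mul_of_nonneg_right g2 hp.le
      _ = _ := one_mul _
  · have h3 : (X : ℝ) ^ (3 / 4 : ℝ) = √(X : ℝ) * (X : ℝ) ^ (1 / 4 : ℝ) := by
      rw [Real.sqrt_eq_rpow, ← Real.rpow_add hX0']
      norm_num
    have h4 : A * (2 * √(X : ℝ)) * (2 * Real.log X) =
        (A * 8 * (Real.log X ^ 1 / (X : ℝ) ^ (1 / 4 : ℝ))) *
          (√(X : ℝ) * (X : ℝ) ^ (1 / 4 : ℝ) / 2) := by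
      field_simp
      ring
    rw [h3, h4]
    calc _ ≤ 1 * (√(X : ℝ) * (X : ℝ) ^ (1 / 4 : ℝ) / 2) :=
          mul_le_mul_of_nonneg_right g3 (by positivity)
      _ = _ := one_mul _

/-- one class -/
lemma class_short (δ : ℝ) (hδ0 : 0 < δ) (hδ1 : δ ≤ 1 / 64) (C0 : ℕ) : ∃ (A : ℝ) (X0 : ℕ), 0 ≤ A ∧
    ∀ X ≥ X0, ∀ H : ℕ, (X : ℝ) ^ (1 / 2 + 4 * δ) ≤ H → H ≤ X → ∀ (P : Finset ℕ) (ρ : ℕ → ℝ),
    SWt 2 X P δ C0 ρ → GG X ρ ≤ C0 / Real.log X → ∀ r : ℕ, FundRes 2 r →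
      ∑ D ∈ FD 2 r X ((H : ℝ) / X), wt ρ D * Lone D ≤ A * (H / Real.log X) := by
  obtain ⟨C, hC, hPV⟩ := Pool.Agent.Q79.PL.p_PV
  obtain ⟨C', hC', hN3⟩ := Pool.Agent.Q79.PL.p_N3a
  obtain ⟨N0, hN0⟩ := er_one
  obtain ⟨X1, hX1⟩ := growths (max C C') δ hδ0
  obtain ⟨X2, hX2⟩ : ∃ X2 : ℕ, ∀ X ≥ X2, N0 ≤ ⌊(X : ℝ) ^ (3 / 4 : ℝ)⌋₊ := by
    have hfl : Tendsto (fun X : ℕ => ⌊(X : ℝ) ^ (3 / 4 : ℝ)⌋₊) atTop atTop :=
      tendsto_nat_floor_atTop.comp ((tendsto_rpow_atTop (by norm_num)).comp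
        (tendsto_natCast_atTop_atTop (R := ℝ)))
    exact eventually_atTop.1 (hfl.eventually_ge_atTop N0)
  refine ⟨1 + 5 * (C0 + 2), max X1 X2, by positivity, ?_⟩
  intro X hX H hHX1 hHX P ρ hρ hGG r hr
  obtain ⟨hX3, hg1, hg2, hg3⟩ := hX1 X ((le_max_left _ _).trans hX)
  have hg4 := hX2 X ((le_max_right _ _).trans hX)
  have hXr : (3 : ℝ) ≤ X := by exact_mod_cast hX3
  have hX1' : (1 : ℝ) ≤ X := by linarith
  have hX0' : (0 : ℝ) < X := by linarith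
  have hl : 1 ≤ Real.log X := by
    rw [Real.le_log_iff_exp_le hX0']
    linarith [Real.exp_one_lt_d9]
  have hl0 : 0 < Real.log X := by linarith
  obtain ⟨N, hN⟩ : ∃ N, N = ⌊(X : ℝ) ^ (3 / 4 : ℝ)⌋₊ := ⟨_, rfl⟩
  rw [← hN] at hg4
  have hXp1 : (1 : ℝ) ≤ (X : ℝ) ^ (3 / 4 : ℝ) := Real.one_le_rpow hX1' (by norm_num)
  have hN1 : 1 ≤ N := by
    rw [hN]
    exact Nat.le_floor (by exact_mod_cast hXp1)
  have hNle : (N : ℝ) ≤ (X : ℝ) ^ (3 / 4 : ℝ) := by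
    rw [hN]
    exact Nat.floor_le (by positivity)
  have hNge : (X : ℝ) ^ (3 / 4 : ℝ) / 2 ≤ N := by
    have h1 : (X : ℝ) ^ (3 / 4 : ℝ) < N + 1 := by
      rw [hN]
      exact Nat.lt_floor_add_one _
    have h2 : (1 : ℝ) ≤ N := by exact_mod_cast hN1
    linarith
  have hNpos : (0 : ℝ) < N := by exact_mod_cast hN1
  have hNX : (N : ℝ) ≤ X := by
    refine hNle.trans ?_
    calc (X : ℝ) ^ (3 / 4 : ℝ) ≤ (X : ℝ) ^ (1 : ℝ) :=
          Real.rpow_le_rpow_of_exponent_le hX1' (by norm_num)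
      _ = X := Real.rpow_one _
  have hH0 : (0 : ℝ) < H := lt_of_lt_of_le (by positivity) hHX1
  have hHXr : (H : ℝ) ≤ X := by exact_mod_cast hHX
  -- the cut
  obtain ⟨Y, hY⟩ : ∃ Y, Y = ⌊(X : ℝ) ^ (3 * δ)⌋₊ := ⟨_, rfl⟩
  have hp1 : (1 : ℝ) ≤ (X : ℝ) ^ (3 * δ) := Real.one_le_rpow hX1' (by linarith)
  have hY1 : 1 ≤ Y := by
    rw [hY]
    exact Nat.le_floor (by simpa using hp1)
  have hYle : (Y : ℝ) ≤ (X : ℝ) ^ (3 * δ) := by
    rw [hY]
    exact Nat.floor_le (by positivity)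
  have hYge : (X : ℝ) ^ (3 * δ) ≤ 2 * Y := by
    have h1 : (X : ℝ) ^ (3 * δ) < Y + 1 := by
      rw [hY]
      exact Nat.lt_floor_add_one _
    have h2 : (1 : ℝ) ≤ Y := by exact_mod_cast hY1
    linarith
  have hYX : Y ≤ 2 * X := by
    have h1 : (Y : ℝ) ≤ X := by
      refine hYle.trans ?_
      calc (X : ℝ) ^ (3 * δ) ≤ (X : ℝ) ^ (1 : ℝ) :=
            Real.rpow_le_rpow_of_exponent_le hX1' (by linarith)
        _ = X := Real.rpow_one _
    have h2 : Y ≤ X := by exact_mod_cast h1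
    omega
  -- the weights
  have hw : ∀ D, 1 ≤ D → 0 ≤ wt ρ D := fun D hD =>
    (T2_WT 2 X P δ C0 ρ (by omega) (by linarith) hρ D hD).1
  have hfl := floor_eq X H (by omega)
  have hDpos1 : ∀ D ∈ DD 2 r X ((H : ℝ) / X), 1 ≤ D := by
    intro D hD
    simp only [DD, Finset.mem_filter, Finset.mem_Ioc] at hD
    omega
  have hFD : FD 2 r X ((H : ℝ) / X) ⊆ DD 2 r X ((H : ℝ) / X) := Finset.filter_subset _ _
  have hwF : ∀ D ∈ FD 2 r X ((H : ℝ) / X), 0 ≤ wt ρ D := fun D hD => hw D (hDpos1 D (hFD hD))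
  have hFmod : ∀ D ∈ FD 2 r X ((H : ℝ) / X), D % Qz 2 = r := by
    intro D hD
    simp only [FD, DD, Finset.mem_filter] at hD
    exact hD.1.2
  have hη : 0 < (H : ℝ) / X := by positivity
  have hQ1 : (1 : ℝ) ≤ Qz 2 := by exact_mod_cast AS1h.Qz_pos 2
  obtain ⟨T, hT⟩ : ∃ T, T = ∑ D ∈ FD 2 r X ((H : ℝ) / X), wt ρ D := ⟨_, rfl⟩
  have hT0 : 0 ≤ T := by rw [hT]; exact Finset.sum_nonneg hwF
  have hXδ : 0 < (X : ℝ) ^ δ := by positivity
  have hGG0 : 0 ≤ GG X ρ := le_trans (by positivity) hρ.low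
  have hTle : T ≤ (C0 + 2) * (H / Real.log X) := by
    have h1 : T ≤ ∑ D ∈ DD 2 r X ((H : ℝ) / X), wt ρ D := by
      rw [hT]
      exact Finset.sum_le_sum_of_subset_of_nonneg hFD fun D hD _ => hw D (hDpos1 D hD)
    have h2 := (abs_le.mp (T2_V0 T2_WT 2 r X ((H : ℝ) / X) P δ C0 ρ 1 hr.1 hη (by omega)
      (by linarith) hρ le_rfl (Nat.coprime_one_left _))).2
    have h3 : (DD 2 r X ((H : ℝ) / X)).filter (fun D => 1 ∣ D) = DD 2 r X ((H : ℝ) / X) :=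
      Finset.filter_true_of_mem fun D _ => one_dvd D
    have h4 : ∑ d ∈ Finset.Icc 1 X, ρ d / (Nat.lcm d 1 : ℝ) = GG X ρ := by
      unfold GG
      refine Finset.sum_congr rfl fun d _ => ?_
      rw [Nat.lcm_one_right]
    rw [h3, h4] at h2
    have h5 : (H : ℝ) / X * X / Qz 2 * GG X ρ ≤ C0 * (H / Real.log X) := by
      have e1 : (H : ℝ) / X * X / Qz 2 = H / Qz 2 := by
        field_simp
      rw [e1]
      calc (H : ℝ) / Qz 2 * GG X ρ ≤ H * (C0 / Real.log X) := by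
            apply mul_le_mul _ hGG hGG0 hH0.le
            exact div_le_self hH0.le hQ1
        _ = C0 * (H / Real.log X) := by ring
    have h6 : (X : ℝ) ^ δ ≤ H / Real.log X := by
      rw [le_div_iff₀ hl0]
      calc (X : ℝ) ^ δ * Real.log X ≤ (X : ℝ) ^ δ * (X : ℝ) ^ δ := by
            apply mul_le_mul_of_nonneg_left _ hXδ.le
            nlinarith
        _ = (X : ℝ) ^ (2 * δ) := by
            rw [← Real.rpow_add hX0']
            congr 1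
            ring
        _ ≤ (X : ℝ) ^ (1 / 2 + 4 * δ) := Real.rpow_le_rpow_of_exponent_le hX1' (by linarith)
        _ ≤ H := hHX1
    linarith
  -- the bound for the nonsquares
  obtain ⟨B, hB⟩ : ∃ B : ℝ, B = (H : ℝ) * ((X : ℝ) ^ δ)⁻¹ := ⟨_, rfl⟩
  have hB0 : 0 ≤ B := by rw [hB]; positivity
  have hsqX : (X : ℝ) ^ (1 / 2 : ℝ) ≤ H * (X : ℝ) ^ (-(4 * δ)) := by
    calc (X : ℝ) ^ (1 / 2 : ℝ) = (X : ℝ) ^ (1 / 2 + 4 * δ) * (X : ℝ) ^ (-(4 * δ)) := by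
          rw [← Real.rpow_add hX0']
          congr 1
          ring
      _ ≤ _ := mul_le_mul_of_nonneg_right hHX1 (by positivity)
  have hns : ∀ m : ℕ, 1 ≤ m → m ≤ N → m.Coprime (Qz 2) → ¬ IsSquare m →
      |∑ D ∈ FD 2 r X ((H : ℝ) / X), wt ρ D * ((jacobiSym (D : ℤ) m : ℤ) : ℝ)| ≤ B := by
    intro m hm1 hmN hmc hms
    have h1 := ns_short C hC hPV r hr X H (by omega) hHX P δ (by linarith) C0 ρ hρ m hm1 hmc hms Y
      hY1 hYX
    refine h1.trans ?_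
    have hm0' : (0 : ℝ) < m := by exact_mod_cast hm1
    have hmNr : (m : ℝ) ≤ N := by exact_mod_cast hmN
    have hlm : Real.log m ≤ Real.log X := Real.log_le_log hm0' (hmNr.trans hNX)
    have hlm0 : 0 ≤ Real.log (m : ℝ) := Real.log_natCast_nonneg m
    have hsm : √(m : ℝ) ≤ (X : ℝ) ^ (3 / 8 : ℝ) := by
      rw [Real.sqrt_le_left (by positivity)]
      refine (hmNr.trans hNle).trans (le_of_eq ?_)
      rw [← Real.rpow_natCast, ← Real.rpow_mul hX0'.le]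
      norm_num
    have hYp : (0 : ℝ) < Y := by exact_mod_cast hY1
    -- three terms
    have t1 : (X : ℝ) ^ δ * (Y * (C * √(m : ℝ) * Real.log m)) ≤
        H * (X : ℝ) ^ (-(4 * δ)) * (C * Real.log X) := by
      calc (X : ℝ) ^ δ * (Y * (C * √(m : ℝ) * Real.log m)) ≤
          (X : ℝ) ^ δ * ((X : ℝ) ^ (3 * δ) * (C * (X : ℝ) ^ (3 / 8 : ℝ) * Real.log X)) := by
            gcongr
        _ = (X : ℝ) ^ (4 * δ + 3 / 8) * (C * Real.log X) := by
            have : (X : ℝ) ^ (4 * δ + 3 / 8) = (X : ℝ) ^ δ * (X : ℝ) ^ (3 * δ) *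
                (X : ℝ) ^ (3 / 8 : ℝ) := by
              rw [← Real.rpow_add hX0', ← Real.rpow_add hX0']
              congr 1
              ring
            rw [this]
            ring
        _ ≤ (X : ℝ) ^ (1 / 2 : ℝ) * (C * Real.log X) := by
            apply mul_le_mul_of_nonneg_right _ (by positivity)
            exact Real.rpow_le_rpow_of_exponent_le hX1' (by linarith)
        _ ≤ _ := mul_le_mul_of_nonneg_right hsqX (by positivity)
    have t2 : (X : ℝ) ^ δ * (H * (Y : ℝ)⁻¹) ≤ 2 * (H * (X : ℝ) ^ (-(2 * δ))) := by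
      have e1 : (Y : ℝ)⁻¹ ≤ 2 * ((X : ℝ) ^ (3 * δ))⁻¹ := by
        rw [inv_eq_one_div, ← div_eq_mul_inv, div_le_div_iff₀ hYp (by positivity)]
        linarith
      calc (X : ℝ) ^ δ * (H * (Y : ℝ)⁻¹) ≤ (X : ℝ) ^ δ * (H * (2 * ((X : ℝ) ^ (3 * δ))⁻¹)) := by
            gcongr
        _ = 2 * (H * ((X : ℝ) ^ δ * (X : ℝ) ^ (-(3 * δ)))) := by
            rw [Real.rpow_neg hX0'.le (3 * δ)]
            ring
        _ = _ := by
            rw [← Real.rpow_add hX0']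
            congr 3
            ring
    have t3 : (X : ℝ) ^ δ * √(2 * (X : ℝ)) ≤ 2 * (H * (X : ℝ) ^ (-(3 * δ))) := by
      have e1 : √(2 * (X : ℝ)) ≤ 2 * (X : ℝ) ^ (1 / 2 : ℝ) := by
        rw [Real.sqrt_mul (by norm_num), ← Real.sqrt_eq_rpow]
        have : √(2 : ℝ) ≤ 2 := by
          rw [Real.sqrt_le_left (by norm_num)]
          norm_num
        exact mul_le_mul_of_nonneg_right this (Real.sqrt_nonneg _)
      calc (X : ℝ) ^ δ * √(2 * (X : ℝ)) ≤ (X : ℝ) ^ δ * (2 * (X : ℝ) ^ (1 / 2 : ℝ)) := by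
            gcongr
        _ ≤ (X : ℝ) ^ δ * (2 * (H * (X : ℝ) ^ (-(4 * δ)))) := by gcongr
        _ = 2 * (H * ((X : ℝ) ^ δ * (X : ℝ) ^ (-(4 * δ)))) := by ring
        _ = _ := by
            rw [← Real.rpow_add hX0']
            congr 3
            ring
    have hA1 : (X : ℝ) ^ (-(4 * δ)) ≤ (X : ℝ) ^ (-(2 * δ)) :=
      Real.rpow_le_rpow_of_exponent_le hX1' (by linarith)
    have hA2 : (X : ℝ) ^ (-(3 * δ)) ≤ (X : ℝ) ^ (-(2 * δ)) :=
      Real.rpow_le_rpow_of_exponent_le hX1' (by linarith)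
    have hCl : C * Real.log X ≤ max C C' * Real.log X :=
      mul_le_mul_of_nonneg_right (le_max_left _ _) hl0.le
    have hX2δ : (X : ℝ) ^ (-(2 * δ)) * (X : ℝ) ^ δ = ((X : ℝ) ^ δ)⁻¹ := by
      rw [← Real.rpow_add hX0', ← Real.rpow_neg hX0'.le]
      congr 1
      ring
    have hp2 : 0 < (X : ℝ) ^ (-(2 * δ)) := by positivity
    calc (X : ℝ) ^ δ * (Y * (C * √(m : ℝ) * Real.log m) + H * (Y : ℝ)⁻¹ + √(2 * (X : ℝ))) =
        (X : ℝ) ^ δ * (Y * (C * √(m : ℝ) * Real.log m)) + (X : ℝ) ^ δ * (H * (Y : ℝ)⁻¹) +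
          (X : ℝ) ^ δ * √(2 * (X : ℝ)) := by ring
      _ ≤ H * (X : ℝ) ^ (-(4 * δ)) * (C * Real.log X) + 2 * (H * (X : ℝ) ^ (-(2 * δ))) +
          2 * (H * (X : ℝ) ^ (-(3 * δ))) := by linarith
      _ ≤ H * (X : ℝ) ^ (-(2 * δ)) * (max C C' * Real.log X) + 2 * (H * (X : ℝ) ^ (-(2 * δ))) +
          2 * (H * (X : ℝ) ^ (-(2 * δ))) := by
          gcongr
      _ = H * (X : ℝ) ^ (-(2 * δ)) * (max C C' * Real.log X + 4) := by ring
      _ ≤ H * (X : ℝ) ^ (-(2 * δ)) * (X : ℝ) ^ δ :=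
          mul_le_mul_of_nonneg_left hg1 (by positivity)
      _ = B := by rw [hB, ← hX2δ]; ring
  have hmain := LMh.main_w 2 r le_rfl (FD 2 r X ((H : ℝ) / X)) hFmod (wt ρ) hwF N B hB0 hns
  rw [← hT] at hmain
  -- approximation of Lone
  have hLone : ∀ D ∈ FD 2 r X ((H : ℝ) / X),
      Lone D ≤ ∑ n ∈ Finset.Icc 1 N, (chi D n : ℝ) / n + 1 := by
    intro D hD
    have hD' := hD
    simp only [FD, DD, Finset.mem_filter, Finset.mem_Ioc] at hD'
    obtain ⟨⟨⟨hD1, hD2⟩, -⟩, hDf⟩ := hD'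
    rw [hfl] at hD2
    have hDle : (D : ℝ) ≤ 2 * X := by
      have h1 : (D : ℝ) ≤ ((X + H : ℕ) : ℝ) := by exact_mod_cast hD2
      push_cast at h1
      linarith
    have hDpos : (0 : ℝ) < D := by
      have : 0 < D := by omega
      exact_mod_cast this
    have h := (abs_le.mp (hN3 D hDf N hN1)).2
    have h2 : C' * √(D : ℝ) * Real.log D / N ≤ 1 := by
      rw [div_le_one hNpos]
      have h3 : √(D : ℝ) ≤ 2 * √(X : ℝ) := by
        have e1 : √(D : ℝ) ≤ √(2 * (X : ℝ)) := Real.sqrt_le_sqrt hDle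
        rw [Real.sqrt_mul (by norm_num)] at e1
        have : √(2 : ℝ) ≤ 2 := by
          rw [Real.sqrt_le_left (by norm_num)]
          norm_num
        exact e1.trans (mul_le_mul_of_nonneg_right this (Real.sqrt_nonneg _))
      have h4 : Real.log D ≤ 2 * Real.log X := by
        have e1 : (D : ℝ) ≤ (X : ℝ) ^ 2 := by nlinarith
        have e2 := Real.log_le_log hDpos e1
        rw [Real.log_pow] at e2
        exact_mod_cast e2
      have h5 : 0 ≤ Real.log (D : ℝ) := Real.log_natCast_nonneg D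
      calc C' * √(D : ℝ) * Real.log D ≤ max C C' * (2 * √(X : ℝ)) * (2 * Real.log X) := by
            have := le_max_right C C'
            gcongr
        _ ≤ (X : ℝ) ^ (3 / 4 : ℝ) / 2 := hg3
        _ ≤ N := hNge
    linarith
  have hsum1 : ∑ D ∈ FD 2 r X ((H : ℝ) / X), wt ρ D * Lone D ≤
      ∑ D ∈ FD 2 r X ((H : ℝ) / X), wt ρ D * ∑ n ∈ Finset.Icc 1 N, (chi D n : ℝ) / n + T * 1 := by
    calc ∑ D ∈ FD 2 r X ((H : ℝ) / X), wt ρ D * Lone D
        ≤ ∑ D ∈ FD 2 r X ((H : ℝ) / X), wt ρ D * (∑ n ∈ Finset.Icc 1 N, (chi D n : ℝ) / n + 1) :=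
          Finset.sum_le_sum fun D hD => mul_le_mul_of_nonneg_left (hLone D hD) (hwF D hD)
      _ = _ := by
          rw [hT, Finset.sum_mul, ← Finset.sum_add_distrib]
          refine Finset.sum_congr rfl fun D _ => ?_
          ring
  have hEr := hN0 r hr N hg4
  have hharm : ∑ n ∈ Finset.Icc 1 N, (1 : ℝ) / n ≤ 1 + Real.log X := by
    refine (LMh.sum_inv_le N).trans ?_
    have := Real.log_le_log hNpos hNX
    linarith
  have hBl : B * ∑ n ∈ Finset.Icc 1 N, (1 : ℝ) / n ≤ H / Real.log X := by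
    calc B * ∑ n ∈ Finset.Icc 1 N, (1 : ℝ) / n ≤ B * (1 + Real.log X) :=
          mul_le_mul_of_nonneg_left hharm hB0
      _ ≤ H / Real.log X := by
          rw [le_div_iff₀ hl0, hB]
          calc (H : ℝ) * ((X : ℝ) ^ δ)⁻¹ * (1 + Real.log X) * Real.log X =
              H * ((1 + Real.log X) * Real.log X * ((X : ℝ) ^ δ)⁻¹) := by ring
            _ ≤ H * ((X : ℝ) ^ δ * ((X : ℝ) ^ δ)⁻¹) := by gcongr
            _ = H := by rw [mul_inv_cancel₀ hXδ.ne', mul_one]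
  have hpi := Pool.Agent.Q79.PL.pi_ge r
  have hfac : (1 + 1 / ((2 : ℕ) : ℝ)) / PiR 2 r + LMh.Er 2 r N ≤ 4 := by
    have h1 : (1 + 1 / ((2 : ℕ) : ℝ)) / PiR 2 r ≤ 3 := by
      rw [div_le_iff₀ (by linarith)]
      push_cast
      linarith
    linarith
  calc ∑ D ∈ FD 2 r X ((H : ℝ) / X), wt ρ D * Lone D ≤
      B * ∑ n ∈ Finset.Icc 1 N, (1 : ℝ) / n +
        T * ((1 + 1 / ((2 : ℕ) : ℝ)) / PiR 2 r + LMh.Er 2 r N) + T * 1 := by linarith
    _ ≤ H / Real.log X + T * 4 + T * 1 := by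
        have := mul_le_mul_of_nonneg_left hfac hT0
        linarith
    _ = H / Real.log X + 5 * T := by ring
    _ ≤ H / Real.log X + 5 * ((C0 + 2) * (H / Real.log X)) := by linarith
    _ = _ := by ring

end Pool.Agent.Helper50.VSI.SI
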